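import Pool.Agent.Lib.DM.GC.Spec

set_option autoImplicit false

/-!
# Theorem DM, part GC, module Abs: absorption of the term of the roots of unity
-/

open scoped Pointwise

noncomputable section

namespace Pool.Agent.DM.GC

open Pool.Agent.MuZ Pool.Agent.FW Pool.Agent.DN Pool.Agent.DM
open Pool.Agent.DI (io ofC io_inj exists_io io_ofC ofC_io VP MP UP TP ex)
open Pool.Agent.DT (kap cbr)
open Pool.Agent.DM.G (CN)
open Pool.Agent.DM.GL (vP GE pl Cls IsR Hq Un Cn od)

variable {n t : ℕ}

private theorem Abs_three [SqN n t] {P : Ideal ZZ} (hP : Ab3 P) {v : OO n t} (h : (3 : OO n t) ∣ v) :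
    GE P 1 (toO v) := by
  have := hP.1.1
  obtain ⟨w, rfl⟩ := h
  have e : toO ((3 : OO n t) * w) = ((3 : ℕ) : Om) * toO w := by
    rw [toO_mul]
    have h1 := toO_nat (n := n) (t := t) 3
    rw [← h1]
    norm_num
  rw [e]
  exact (DL.GE.two_iff (pl hP)).2 ⟨toO w, toO_VP w, rfl⟩

private theorem Abs_int {P : Ideal ZZ} (hP : Ab3 P) {N : ℕ} {j : ℤ} (h : (3 : ℤ) ^ N ∣ j) :
    GE P N ((j : ℤ) : Om) := by
  have := hP.1.1
  have h3 : ((3 : ℕ) : Om) ≠ 0 := by norm_num
  have h2 := DL.vl_two_pow (pl hP) N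
  have h4 := (DL.GE.tp_iff (pl hP) (t := ((3 : ℕ) : Om) ^ N) (x := ((j : ℤ) : Om)) (pow_ne_zero _ h3)).2
  rw [h2] at h4
  apply h4
  obtain ⟨w, rfl⟩ := h
  exact ⟨(w : Om), DI.VP.int w, by push_cast; ring⟩

private theorem Abs_num {N : ℕ} (hN : 3 ≤ N) : ∃ x : ℚ, 0 < x ∧ x ≤ 1 / 27 ∧ (4 : ℚ) / 3 ^ N = 4 * x ∧
    (6 : ℚ) / 3 ^ N = 6 * x := by
  refine ⟨1 / 3 ^ N, by positivity, ?_, by ring, by ring⟩
  have h1 : (27 : ℚ) ≤ 3 ^ N := by
    have h2 : (3 : ℚ) ^ 3 ≤ 3 ^ N := pow_le_pow_right₀ (by norm_num) hN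
    norm_num at h2 ⊢
    exact h2
  exact one_div_le_one_div_of_le (by norm_num) h1

theorem tAbs : S_Abs := by
  intro hSur hZt hTc hV0 hChT hU1 hUA n t _ P f N k e m R χ hy
  have hP := hy.ab
  have hPp := hP.1.1
  have hpl := pl hP
  have hT0 := hZt.1
  have hN3 := hy.hN
  have hk1 : 1 ≤ k := by
    rcases hy.hk with h | h | h <;> omega
  obtain ⟨x, hx0, hx1, hx4, hx6⟩ := Abs_num hN3
  obtain ⟨-, -, -, -, -, -, hm0, hm3, -⟩ := w_fm hy.fm
  have hf' : Fok (f * NI m) :=
    ⟨Nat.mul_pos hy.fm.pos hm0, Dvd.dvd.mul_right hy.fm.dvd _, Nat.Coprime.mul_left hy.fm.cop hm3⟩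
  have hff : f ∣ f * NI m := Dvd.intro _ rfl
  obtain ⟨C, th, hC, hth, heq, hE⟩ := hU1 n t P f N k e m R χ hy
  obtain ⟨hper, hact⟩ := hUA n t P hP f N k m R χ hy.fm hy.fr hy.chi (by omega) hk1
  obtain ⟨-, hw8, hU⟩ := w_w8 hT0 hP
  have hw8v : DL.vl P 3 w8 = 1 / 8 := (hZt.2.2.1 P hP).1
  have hGk : GE P (k / 8) (w8 ^ k) := by
    right
    rw [DL.vl_pow hpl hU k, hw8v]
    exact le_of_eq (by ring)
  have hs1 : VP P ((-1 : Om) ^ e) := (DI.VP.neg DI.VP.one).pow e
  have hss : ((-1 : Om) ^ e) * (-1) ^ e = 1 := by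
    rw [← mul_pow]
    norm_num
  have hW : WW P f N k e m R χ 1 = UU P f N k m R χ 1 + (-1) ^ e * UU P f N k m R χ (-1) := rfl
  rw [hx4] at hth
  rw [hx6] at hE
  set W := WW P f N k e m R χ 1 with hWdef
  set X := w8 ^ k * (C * th) with hXdef
  have h3N : (3 : ℤ) ∣ (3 : ℤ) ^ N := dvd_pow_self 3 (by omega)
  constructor
  · intro hke
    obtain ⟨g, hg1, hgN, hg3, -⟩ := hV0 n t (f * NI m) N (-1) hf'.pos hf'.cop (by omega) (by omega)
    rw [sub_neg_eq_add] at hgN
    obtain ⟨σ, hσ⟩ := hSur n t P hP (f * NI m) N hf' (by omega) g hg1 hg3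
    obtain ⟨hz8, hzt, -, -, -, hz4, -⟩ := (hT0.2 n t P hP g g).2 hg3 hg3
    have hξ4 := hz4.2 (h3N.trans hgN)
    set ξ := zt P g with hξ
    have hξV : VP P ξ := (DI.UP.of_pow (n := 8) (by norm_num) (by rw [hz8]; exact DI.UP.one)).1
    have hσU1 : σ (UU P f N k m R χ 1) = UU P f N k m R χ (-1) := by
      rw [hact 1 g σ (by omega) hσ]
      apply hper
      rwa [mul_one, sub_neg_eq_add]
    have hσU2 : σ (UU P f N k m R χ (-1)) = UU P f N k m R χ 1 := by
      rw [hact (-1) g σ (by omega) hσ]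
      apply hper
      have e1 : Nm g * (-1) - 1 = -(Nm g + 1) := by ring
      rw [e1]
      exact (dvd_neg).2 hgN
    have hσs : σ ((-1 : Om) ^ e) = (-1) ^ e := by
      rw [map_pow, map_neg, map_one]
    have hσW : σ W = (-1) ^ e * W := by
      rw [hW, map_add, map_mul, hσU1, hσU2, hσs]
      linear_combination (-UU P f N k m R χ (-1)) * hss
    have hσw := hTc n t P hP (f * NI m) N g σ hf' (by omega) hσ
    have hσC : σ C = C := hC.2 σ hσ.ine
    have hclaim : GE P (11 / 8 - 4 * x) (ξ * σ th + th) := by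
      have e1 : ξ * σ th + th = (toO g * σ th - (Nm g : Om) * th) + (((Nm g + 1 : ℤ) : Om)) * th -
          (toO g - ξ) * σ th := by
        push_cast
        ring
      rw [e1]
      have h1 : GE P (11 / 8 - 4 * x) (toO g * σ th - (Nm g : Om) * th) :=
        (heq (f * NI m) g σ hf' hff hσ).mono (by linarith)
      have h2 : GE P (11 / 8 - 4 * x) ((((Nm g + 1 : ℤ) : Om)) * th) := by
        refine ((Abs_int hP hgN).mul hpl hth).mono ?_
        have h3 : (3 : ℚ) ≤ N := by exact_mod_cast hN3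
        linarith
      have h4 : GE P 1 (toO g - ξ) := by
        have h5 : GE P 1 (ξ - toO g) := by
          refine (DL.GE.two_iff hpl).2 ?_
          rw [Nat.cast_ofNat]
          exact hzt
        have h6 := h5.neg hpl
        rwa [neg_sub] at h6
      have h5 : GE P (11 / 8 - 4 * x) ((toO g - ξ) * σ th) :=
        (h4.mul hpl (hth.inertia hpl hσ.ine)).mono (by linarith)
      exact (h1.add hpl h2).sub hpl h5
    have hσX : GE P ((k + 11) / 8 - 6 * x) (σ X + ξ ^ (k - 1) * X) := by
      have e1 : σ X + ξ ^ (k - 1) * X = w8 ^ k * ((C * ξ ^ (k - 1)) * (ξ * σ th + th)) := by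
        have e2 : ξ ^ k = ξ ^ (k - 1) * ξ := by
          rw [← pow_succ]
          congr 1
          omega
        rw [hXdef, map_mul, map_mul, map_pow, hσw, hσC, mul_pow, e2]
        ring
      rw [e1]
      refine (hGk.mul hpl (hclaim.mul_left hpl (hC.1.mul (hξV.pow _)))).mono ?_
      linarith
    have hE' := hE.inertia hpl hσ.ine
    rw [map_sub, hσW] at hE'
    have hlast : GE P ((k + 11) / 8 - 6 * x) (((-1) ^ e - -ξ ^ (k - 1)) * X) := by
      have e1 : ((-1) ^ e - -ξ ^ (k - 1)) * X =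
          (((-1) ^ e * W - σ X) - (-1) ^ e * (W - X)) + (σ X + ξ ^ (k - 1) * X) := by ring
      rw [e1]
      exact (hE'.sub hpl (hE.mul_left hpl hs1)).add hpl hσX
    have hunit : UP P ((-1 : Om) ^ e - -ξ ^ (k - 1)) := by
      apply (hZt.2.2.1 P hP).2
      · rw [← pow_mul, mul_comm, pow_mul]
        norm_num
      · rw [Even.neg_pow (by decide), ← pow_mul, mul_comm, pow_mul, hz8, one_pow]
      · intro h
        have h2 : (2 : Om) ≠ 0 := two_ne_zero
        rcases hy.hk with rfl | rfl | rfl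
        · have he0 : e = 0 := by
            rcases hy.he with h3 | h3
            · exact h3
            · exact absurd ⟨rfl, h3⟩ hke
          subst he0
          norm_num at h
        · have h3 : ξ = -(-1) ^ e := by
            have h4 : ξ ^ (2 - 1) = ξ := by norm_num
            rw [h4] at h
            linear_combination h
          have h5 : ξ ^ 4 = 1 := by
            rw [h3, Even.neg_pow (by decide), ← pow_mul, mul_comm, pow_mul]
            norm_num
          rw [h5] at hξ4
          apply h2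
          linear_combination hξ4
        · have h3 : ξ ^ 2 = -(-1) ^ e := by
            have h4 : (3 : ℕ) - 1 = 2 := by norm_num
            rw [h4] at h
            linear_combination h
          have h5 : ξ ^ 4 = 1 := by
            have h6 : ξ ^ 4 = (ξ ^ 2) ^ 2 := by ring
            rw [h6, h3]
            linear_combination hss
          rw [h5] at hξ4
          apply h2
          linear_combination hξ4
    have hX : GE P ((k + 11) / 8 - 6 * x) X := by
      have h1 := hlast.mul_left hpl hunit.inv.1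
      rwa [← mul_assoc, inv_mul_cancel₀ hunit.ne_zero, one_mul] at h1
    have hfin := hE.add hpl hX
    rw [sub_add_cancel] at hfin
    rw [hx6]
    refine hfin.mono ?_
    have h3 : (1 : ℚ) ≤ k := by exact_mod_cast hk1
    linarith
  · intro hk he u hu
    subst hk he
    have hu3 : ¬ (3 : ℤ) ∣ u := by omega
    obtain ⟨α, hα1, hαN, hα3, hαm⟩ := hV0 n t (f * NI m) N u hf'.pos hf'.cop (by omega) hu3
    have hαd := hαm hu
    obtain ⟨σ, hσ⟩ := hSur n t P hP (f * NI m) N hf' (by omega) α hα1 hα3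
    have hz1 : zt P α = 1 := by
      have h1 := ((hT0.2 n t P hP α 1).2 hα3 (cop_one 3)).2.2.2.1.1 hαd
      rw [h1]
      exact (hZt.2.2.2 n t P hP).2.2.2
    have hσU1 : σ (UU P f N 1 m R χ 1) = UU P f N 1 m R χ u := by
      rw [hact 1 α σ (by omega) hσ]
      apply hper
      rwa [mul_one]
    have hσU2 : σ (UU P f N 1 m R χ (-1)) = UU P f N 1 m R χ (-u) := by
      rw [hact (-1) α σ (by omega) hσ]
      apply hper
      have e1 : Nm α * (-1) - -u = -(Nm α - u) := by ring
      rw [e1]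
      exact (dvd_neg).2 hαN
    have hσW : σ W = WW P f N 1 1 m R χ u := by
      rw [hW, map_add, map_mul, hσU1, hσU2, map_pow, map_neg, map_one]
      rfl
    have hσw := hTc n t P hP (f * NI m) N α σ hf' (by omega) hσ
    rw [hz1, one_mul] at hσw
    have hσC : σ C = C := hC.2 σ hσ.ine
    have hD : GE P (11 / 8 - 4 * x) (σ th - th) := by
      have h1 : GE P (11 / 8 - 4 * x) (toO α * (σ th - th)) := by
        have e1 : toO α * (σ th - th) = (toO α * σ th - (Nm α : Om) * th) +
            ((((Nm α - 1 : ℤ) : Om)) - toO (α - 1)) * th := by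
          rw [toO_sub, toO_one]
          push_cast
          ring
        rw [e1]
        have h2 : GE P (11 / 8 - 4 * x) (toO α * σ th - (Nm α : Om) * th) :=
          (heq (f * NI m) α σ hf' hff hσ).mono (by linarith)
        have h3 : GE P 1 (((Nm α - 1 : ℤ) : Om)) := by
          have h4 : (3 : ℤ) ^ 1 ∣ Nm α - 1 := by
            rw [pow_one]
            have h5 := dvd_add (h3N.trans hαN) hu
            rwa [sub_add_sub_cancel] at h5
          have h5 := Abs_int hP h4
          rwa [Nat.cast_one] at h5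
        exact h2.add hpl (((h3.sub hpl (Abs_three hP hαd)).mul hpl hth).mono (by linarith))
      have hαU := ((hZt.2.2.2 n t P hP).2.2.1 α hα3).1
      have h2 := h1.mul_left hpl hαU.inv.1
      rwa [← mul_assoc, inv_mul_cancel₀ hαU.ne_zero, one_mul] at h2
    have hE' := hE.inertia hpl hσ.ine
    rw [map_sub, hσW] at hE'
    have e1 : WW P f N 1 1 m R χ u - W = ((WW P f N 1 1 m R χ u - σ X) - (W - X)) + w8 ^ 1 * (C * (σ th - th)) := by
      rw [hXdef, map_mul, map_mul, map_pow, hσw, hσC]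
      ring
    rw [hx6, e1]
    refine ((hE'.sub hpl hE).mono ?_).add hpl ((hGk.mul hpl (hD.mul_left hpl hC.1)).mono ?_)
    · rw [Nat.cast_one]
      linarith
    · rw [Nat.cast_one]
      linarith

end Pool.Agent.DM.GC
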