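import Pool.Agent.Lib.DM.GC.AllP
import Pool.Agent.Lib.DM.GL.In
import Pool.Agent.Lib.DM.GC.Fou

/-!
# Theorem DM (`p = 3` inert): the local step, without hypotheses (author helper85)

`GL.zGL : GLOut`, `GL.zGT : GTOut`, `GL.zGB : GBOut`, `GL.zT1 : S_T1`, `GL.zT2 : S_T2`, `GC.zLS : S_LS`, `GC.zChT : C_ChT`
(in `AllP`: `GL.zDL`, `GL.zT0 : S_T0`, `GL.zKp : S_Kp`, `GC.zTm : S_Tm`, `GC.zC4 : S_C4`).
-/

set_option autoImplicit false

noncomputable section

namespace Pool.Agent.DM.GL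

open Pool.Agent.MuZ Pool.Agent.FW Pool.Agent.DN Pool.Agent.DM

theorem zGL : GLOut := pGL tIn

theorem zGT : GTOut := pGT tIn

theorem zGB : GBOut := pGB tIn

theorem zT1 : S_T1 := zGT.T1

theorem zT2 : S_T2 := zGT.T2

end Pool.Agent.DM.GL

namespace Pool.Agent.DM.GC

open Pool.Agent.MuZ Pool.Agent.FW Pool.Agent.DN Pool.Agent.DM

/-- The local step. -/
theorem zLS : S_LS := (pLS GL.tIn tFou).1

theorem zChT : C_ChT := (pLS GL.tIn tFou).2

end Pool.Agent.DM.GC
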