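import Pool.Agent.Lib.DM.GC.Spec

/-!
# Theorem DM, part GC, module `ChT`: the character (integrality, inertia, types) (helper2)
-/

set_option autoImplicit false

open scoped Pointwise

noncomputable section

namespace Pool.Agent.DM.GC

open Pool.Agent.MuZ Pool.Agent.FW Pool.Agent.DN Pool.Agent.DM
open Pool.Agent.DI (io ofC io_inj exists_io io_ofC ofC_io VP MP UP TP ex)
open Pool.Agent.DT (kap cbr)
open Pool.Agent.DM.G (CN)
open Pool.Agent.DM.GL (vP GE pl Cls IsR Hq Un Cn od)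

variable {n t : ℕ}

private theorem ChT_pow {P : Ideal ZZ} (hP : P.IsPrime) {a b : Om} (ha : VP P a) (hb : VP P b)
    (h : MP P (a - b)) (j : ℕ) : MP P (a ^ j - b ^ j) := by
  induction j with
  | zero => rw [pow_zero, pow_zero, sub_self]; exact DI.MP.zero
  | succ j ih =>
    rw [pow_succ, pow_succ]
    exact CV_mp_mul hP ha (DI.VP.pow hb j) ih h

private theorem ChT_oN_congr {b b' : Ideal (OO n t)} (h : NI b % 3 = NI b' % 3) : oN b = oN b' := by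
  unfold oN
  rw [h]

private theorem ChT_oN_sq {b : Ideal (OO n t)} (h : ¬ 3 ∣ NI b) : oN b ^ 2 = 1 := by
  have h1 : NI b % 3 = 1 ∨ NI b % 3 = 2 := by omega
  unfold oN
  rcases h1 with h1 | h1 <;> rw [h1] <;> norm_num

private theorem ChT_oN_mul [SqN n t] (a b : Ideal (OO n t)) : oN (a * b) = oN a * oN b := by
  have ha : NI a % 3 = 0 ∨ NI a % 3 = 1 ∨ NI a % 3 = 2 := by omega
  have hb : NI b % 3 = 0 ∨ NI b % 3 = 1 ∨ NI b % 3 = 2 := by omega
  unfold oN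
  rw [CV_NI_mul, Nat.mul_mod]
  rcases ha with ha | ha | ha <;> rcases hb with hb | hb | hb <;> rw [ha, hb] <;> norm_num

/-- `ξ ^ 4 = -1`: a primitive eighth root of unity. -/
private theorem ChT_prim {ξ : Om} (h : ξ ^ 4 = -1) : IsPrimitiveRoot ξ 8 := by
  have h1 : orderOf ξ = 2 ^ (2 + 1) := by
    refine orderOf_eq_prime_pow ?_ ?_
    · have e : (2 : ℕ) ^ 2 = 4 := by norm_num
      rw [e, h]
      norm_num
    · have e : (2 : ℕ) ^ (2 + 1) = 4 * 2 := by norm_num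
      rw [e, pow_mul, h]
      norm_num
  have h2 := IsPrimitiveRoot.orderOf ξ
  rw [h1] at h2
  have e : (2 : ℕ) ^ (2 + 1) = 8 := by norm_num
  rwa [e] at h2

theorem tChT : S_ChT := by
  intro hRou hZt hV0 n t _ P hP f χ hf hχ
  have hPp : P.IsPrime := hP.1.1
  have h3 : MP P 3 := hP.2
  have hf0 : 0 < f := hf.pos
  have hF0 : 0 < 3 * f := by omega
  obtain ⟨hT0, -, hdif, hZ⟩ := hZt
  obtain ⟨hz8, hzu, hzU, hz1⟩ := hZ n t P hP
  obtain ⟨m, hm, hχm⟩ := hχ.cop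
  obtain ⟨-, -, -, -, -, -, -, h7s, -⟩ := aO7 n t (3 * f) hF0
  have hm0 : 0 < m := Nat.pos_of_ne_zero fun h => by
    rw [h] at hm
    norm_num at hm
  -- elementary facts on `χ`
  have htop : χ ⊤ = 1 := by
    have h4 := hχm ⊤ top_ne_bot (CV_top _)
    have h5 : χ ⊤ * χ ⊤ = χ ⊤ := by rw [← hχ.mul, Ideal.top_mul]
    have h6 : χ ⊤ ≠ 0 := by
      intro h
      rw [h, zero_pow hm0.ne'] at h4
      exact zero_ne_one h4
    exact mul_right_cancel₀ h6 (by rw [h5, one_mul])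
  have hsp : ∀ (v : OO n t) (j : ℕ), χ (sp (v ^ j)) = χ (sp v) ^ j := by
    intro v j
    induction j with
    | zero => rw [pow_zero, pow_zero, CV_sp_one, htop]
    | succ j ih => rw [pow_succ, pow_succ, ← CV_sp_mul, hχ.mul, ih]
  have hxm : ∀ v : OO n t, Cop v (3 * f) → χ (sp v) ^ m = 1 := fun v h4 =>
    hχm _ (CV_sp_ne (CV_ne_of_cop (by omega) h4)) (CV_pri_sp hF0 h4)
  have hcong : ∀ v v' : OO n t, Cop v (3 * f) → Cop v' (3 * f) →
      ((3 * f : ℕ) : OO n t) ∣ v - v' → χ (sp v) = χ (sp v') := by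
    intro v v' h4 h4' h5
    have hv := CV_ne_of_cop (by omega) h4
    have hv' := CV_ne_of_cop (by omega) h4'
    refine hχ.ray _ _ (CV_sp_ne hv) (CV_sp_ne hv') (CV_pri_sp hF0 h4) (CV_pri_sp hF0 h4') ?_
    exact (h7s v v' hv hv' h4 h4').2 ⟨1, Nm_one, by rw [one_mul]; exact h5⟩
  have hcong3 : ∀ v v' : OO n t, (f : OO n t) ∣ v - 1 → Cop v 3 → (f : OO n t) ∣ v' - 1 → Cop v' 3 →
      (3 : OO n t) ∣ v - v' → χ (sp v) = χ (sp v') := by
    intro v v' h4 h4c h5 h5c h6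
    refine hcong v v' (v_cop3f h4 h4c) (v_cop3f h5 h5c) (CV_cast_mul hf.cop.symm ?_ ?_)
    · rw [w_cast3]
      exact h6
    · have h7 := dvd_sub h4 h5
      rwa [sub_sub_sub_cancel_right] at h7
  have hcpow : ∀ (v : OO n t) (N j : ℕ), Cop v N → Cop (v ^ j) N := by
    intro v N j hv
    induction j with
    | zero => rw [pow_zero]; exact cop_one _
    | succ j ih => rw [pow_succ]; exact cop_mul ih hv
  have hzpow : ∀ (v : OO n t) (j : ℕ), Cop v 3 → zt P (v ^ j) = zt P v ^ j := by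
    intro v j hv
    induction j with
    | zero => rw [pow_zero, pow_zero, hz1]
    | succ j ih => rw [pow_succ, pow_succ, w_zt_mul hT0 hP (hcpow v 3 j hv) hv, ih]
  have hzt8 : ∀ v : OO n t, Cop v 3 → zt P v ^ 8 = 1 := fun v hv => (w_zt hT0 hP hv).1
  have hztV : ∀ v : OO n t, Cop v 3 → UP P (zt P v) := fun v hv => (w_zt hT0 hP hv).2.2.1
  have hztM : ∀ (v : OO n t) (j : ℕ), Cop v 3 → MP P (zt P v ^ j - toO v ^ j) := fun v j hv =>
    ChT_pow hPp (hztV v hv).1 (toO_VP v) (CV_tp_mp hPp h3 (w_zt hT0 hP hv).2.1) j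
  -- (1)
  have hC1 : ∀ b : Ideal (OO n t), VP P (χ b) ∧ ∀ τ ∈ P.inertia Gal(Om/ℚ), τ (χ b) = χ b := by
    intro b
    by_cases hb : b = ⊥ ∨ ¬ PrI b (3 * f)
    · rw [hχ.zero b hb]
      exact ⟨DI.VP.zero, fun τ _ => map_zero τ⟩
    · push Not at hb
      obtain ⟨h4, -, h5⟩ := hRou P hP (χ b) m hm (hχm b hb.1 hb.2)
      exact ⟨h4.1, h5⟩
  -- (2)
  have hTy : ∀ j : ℕ, Ty P f χ j → ∀ v : OO n t, (f : OO n t) ∣ v - 1 → Cop v 3 →
      χ (sp v) = zt P v ^ j := by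
    intro j hj v h4 h5
    obtain ⟨x, hx⟩ : ∃ x : Om, x = χ (sp v) := ⟨_, rfl⟩
    obtain ⟨y, hy⟩ : ∃ y : Om, y = zt P v ^ j := ⟨_, rfl⟩
    rw [← hx, ← hy]
    have hxm1 : x ^ m = 1 := by rw [hx]; exact hxm v (v_cop3f h4 h5)
    have hy8 : y ^ 8 = 1 := by
      rw [hy, ← pow_mul, mul_comm, pow_mul, hzt8 v h5, one_pow]
    have hyV : VP P y := (CV_up_of_pow hPp (q := 8) (by norm_num) hy8).1
    have h6 : MP P (x - y) := by
      have h7 := hj v h4 h5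
      rw [← hx] at h7
      have h8 := hztM v j h5
      rw [← hy] at h8
      exact CV_mp_trans hPp h7 (CV_mp_symm h8)
    have h7 : x * y ^ 7 = 1 := by
      have hc8 : (8 * m).Coprime 3 := Nat.Coprime.mul_left (by norm_num) hm
      refine (hRou P hP (x * y ^ 7) (8 * m) hc8 ?_).2.1 ?_
      · have e : (x * y ^ 7) ^ (8 * m) = (x ^ m) ^ 8 * (y ^ 8) ^ (7 * m) := by ring
        rw [e, hxm1, hy8, one_pow, one_pow, one_mul]
      · have e : x * y ^ 7 - 1 = (x - y) * y ^ 7 := by linear_combination hy8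
        rw [e]
        exact DI.MP.mul_right h6 (DI.VP.pow hyV 7)
    linear_combination y * h7 - x * hy8
  -- (4)
  obtain ⟨v0, hv0f, hv0n, hv0c, -⟩ := hV0 n t f 1 (-1) hf0 hf.cop le_rfl (by norm_num)
  rw [pow_one, sub_neg_eq_add] at hv0n
  have hξ4 : zt P v0 ^ 4 = -1 :=
    (((hT0.2 n t P hP v0 v0).2 hv0c hv0c).2.2.2.2.2.1).2 hv0n
  have hprim := ChT_prim hξ4
  have hfpow : ∀ j : ℕ, (f : OO n t) ∣ v0 ^ j - 1 := fun j =>
    dvd_trans hv0f (sub_one_dvd_pow_sub_one v0 j)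
  have hX8 : χ (sp v0) ^ 8 = 1 := by
    rw [← hsp, ← htop, ← CV_sp_one]
    exact hcong3 _ _ (hfpow 8) (hcpow v0 3 8 hv0c) (by rw [sub_self]; exact dvd_zero _) (cop_one 3)
      (hz8 v0 hv0c)
  obtain ⟨j, hj8, hj⟩ := hprim.eq_pow_of_pow_eq_one hX8
  have hjv : ∀ v : OO n t, (f : OO n t) ∣ v - 1 → Cop v 3 → χ (sp v) = zt P v ^ j := by
    intro v h4 h5
    obtain ⟨i, -, hi⟩ := hprim.eq_pow_of_pow_eq_one (hzt8 v h5)
    have hci := hcpow v0 3 i hv0c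
    have h6 : zt P v = zt P (v0 ^ i) := by rw [hzpow v0 i hv0c, hi]
    have h7 : (3 : OO n t) ∣ v - v0 ^ i := (((hT0.2 n t P hP v (v0 ^ i)).2 h5 hci).2.2.2.1).2 h6
    rw [hcong3 v (v0 ^ i) h4 h5 (hfpow i) hci h7, hsp, ← hj, h6, hzpow v0 i hv0c, ← pow_mul,
      ← pow_mul, mul_comm]
  have hoNsp : ∀ v : OO n t, Cop v 3 → oN (sp v) = zt P v ^ 4 := by
    intro v hv
    have hN := CV_NI_sp v
    obtain ⟨-, -, -, -, hp1, hp2, -⟩ := (hT0.2 n t P hP v v).2 hv hv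
    have h4 : ¬ (3 : ℤ) ∣ Nm v := by
      intro h5
      rw [GL.three_Nm] at h5
      exact (GL.cop3_iff v).1 hv h5
    have h5 : (3 : ℤ) ∣ Nm v - 1 ∨ (3 : ℤ) ∣ Nm v + 1 := by omega
    rcases h5 with h5 | h5
    · have h6 : NI (sp v) % 3 = 1 := by omega
      rw [hp1.2 h5]
      unfold oN
      rw [if_pos h6]
    · have h6 : NI (sp v) % 3 = 2 := by omega
      rw [hp2.2 h5]
      unfold oN
      rw [if_neg (by omega), if_pos h6]
  have hNI3 : ∀ b : Ideal (OO n t), PrI b (3 * f) → ¬ 3 ∣ NI b := by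
    intro b hb h4
    have h5 := (CV_NI_cop (by norm_num : 0 < 3)).1 (CV_pri_dvd hb (Dvd.intro _ rfl))
    have h6 := Nat.dvd_gcd h4 (dvd_refl 3)
    rw [h5] at h6
    norm_num at h6
  refine ⟨hC1, hTy, ?_, ⟨j, hj8, ?_⟩, ⟨?_, ?_, ?_, ?_⟩, ?_, ⟨?_, ?_, ?_, ?_⟩, ?_, ?_⟩
  · -- (3)
    rintro h ⟨hc, i, hi⟩
    have h4 := hcong (h ^ 3 ^ i) 1 (hcpow h _ _ hc) (cop_one _) hi
    rw [hsp, CV_sp_one, htop] at h4
    have h5 := hxm h hc
    have h6 := pow_gcd_eq_one.2 ⟨h4, h5⟩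
    have h7 : Nat.gcd (3 ^ i) m = 1 := Nat.Coprime.pow_left i hm.symm
    rwa [h7, pow_one] at h6
  · intro v h4 h5
    rw [hjv v h4 h5]
    exact hztM v j h5
  · -- (5)
    intro b hb
    change χ b ^ 3 = 0
    rw [hχ.zero b hb]
    exact zero_pow (by norm_num)
  · intro b b' h4 h5 h6 h7 h8
    change χ b ^ 3 = χ b' ^ 3
    rw [hχ.ray b b' h4 h5 h6 h7 h8]
  · intro a b
    change χ (a * b) ^ 3 = χ a ^ 3 * χ b ^ 3
    rw [hχ.mul, mul_pow]
  · refine ⟨m, hm, fun b h4 h5 => ?_⟩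
    change (χ b ^ 3) ^ m = 1
    rw [← pow_mul, mul_comm, pow_mul, hχm b h4 h5, one_pow]
  · -- (6)
    intro i hT v h4 h5
    change MP P (χ (sp v) ^ 3 - toO v ^ (3 * i))
    rw [mul_comm 3 i, pow_mul]
    exact ChT_pow hPp (hC1 _).1 (DI.VP.pow (toO_VP v) i) (hT v h4 h5) 3
  · -- (7)
    intro b hb
    change χ b * oN b = 0
    rw [hχ.zero b hb, zero_mul]
  · intro b b' h4 h5 h6 h7 h8
    change χ b * oN b = χ b' * oN b'
    have h9 := aO9 n t (3 * f) hF0 b b' h6 h7 h8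
    have h10 : (3 : ℤ) ∣ (NI b : ℤ) - NI b' := by
      refine dvd_trans ?_ h9
      push_cast
      exact Dvd.intro _ rfl
    rw [hχ.ray b b' h4 h5 h6 h7 h8, ChT_oN_congr (b := b) (b' := b') (by omega)]
  · intro a b
    change χ (a * b) * oN (a * b) = χ a * oN a * (χ b * oN b)
    rw [hχ.mul, ChT_oN_mul]
    ring
  · refine ⟨2 * m, Nat.Coprime.mul_left (by norm_num) hm, fun b h4 h5 => ?_⟩
    change (χ b * oN b) ^ (2 * m) = 1
    have e : (χ b * oN b) ^ (2 * m) = (χ b ^ m) ^ 2 * (oN b ^ 2) ^ m := by ring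
    rw [e, hχm b h4 h5, ChT_oN_sq (hNI3 b h5), one_pow, one_pow, one_mul]
  · -- (8)
    intro i hT v h4 h5
    change MP P (χ (sp v) * oN (sp v) - toO v ^ (i + 4))
    rw [hoNsp v h5, pow_add]
    exact CV_mp_mul hPp (DI.VP.pow (hztV v h5).1 4) (DI.VP.pow (toO_VP v) i) (hT v h4 h5)
      (hztM v 4 h5)
  · -- (9)
    intro i i' hi hT v h4 h5
    have h6 : zt P v ^ i = zt P v ^ i' := by
      rw [← Nat.mod_add_div i 8, ← Nat.mod_add_div i' 8, pow_add, pow_add, pow_mul, pow_mul, hzt8 v h5,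
        one_pow, one_pow, hi]
    have h7 := hztM v i h5
    have h8 := hztM v i' h5
    rw [← h6] at h8
    exact CV_mp_trans hPp (hT v h4 h5) (CV_mp_trans hPp (CV_mp_symm h7) h8)

end Pool.Agent.DM.GC
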