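import Pool.Agent.Lib.DM.GC.Spec

set_option autoImplicit false

/-!
# Theorem DM, part GC, module LSm: `S_LS`, the end of the local step
-/

open scoped Pointwise

noncomputable section

namespace Pool.Agent.DM.GC

open Pool.Agent.MuZ Pool.Agent.FW Pool.Agent.DN Pool.Agent.DM
open Pool.Agent.DI (io ofC io_inj exists_io io_ofC ofC_io VP MP UP TP ex)
open Pool.Agent.DT (kap cbr)
open Pool.Agent.DM.G (CN)
open Pool.Agent.DM.GL (vP GE pl Cls IsR Hq Un Cn od)

/-! ## Roots of unity -/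

private theorem LSm_zm {q l : ℕ} (hq : 0 < q) (hl : 0 < l) : zet (q * l) ^ l = zet q := by
  apply io_inj
  have hq' : (q : ℂ) ≠ 0 := by exact_mod_cast hq.ne'
  have hl' : (l : ℂ) ≠ 0 := by exact_mod_cast hl.ne'
  rw [map_pow, CV_io_zet (Nat.mul_pos hq hl), CV_io_zet hq]
  unfold ex
  rw [← Complex.exp_nat_mul]
  congr 1
  push_cast
  field_simp

private theorem LSm_prim {q : ℕ} (hq : 0 < q) : IsPrimitiveRoot (zet q) q := by
  have h : IsPrimitiveRoot (ex (1 / q)) q := by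
    have h0 : (ex (1 / q) : ℂ) = Complex.exp (2 * Real.pi * Complex.I / q) := by
      unfold ex
      congr 1
      ring
    rw [h0]
    exact Complex.isPrimitiveRoot_exp q hq.ne'
  rw [← CV_io_zet hq] at h
  exact h.of_map_of_injective io_inj

private theorem LSm_mp {P : Ideal ZZ} (hP : Ab3 P) : ∀ (i : ℕ) (x : Om), x ^ 3 ^ i = 1 → MP P (x - 1)
  | 0, x, h => by
    have := hP.1.1
    rw [pow_zero, pow_one] at h
    rw [h, sub_self]
    exact DI.MP.zero
  | i + 1, x, h => by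
    have := hP.1.1
    have h1 : (x ^ 3) ^ 3 ^ i = 1 := by
      rw [← pow_mul, ← pow_succ']
      exact h
    have h2 := LSm_mp hP i _ h1
    have hx : VP P x := (CV_up_of_pow hP.1.1 (by positivity) h).1
    have h3 : MP P ((x - 1) ^ 3) := by
      have e : (x - 1) ^ 3 = (x ^ 3 - 1) - 3 * (x * (x - 1)) := by ring
      rw [e]
      exact h2.sub (hP.2.mul_right (hx.mul (hx.sub DI.VP.one)))
    exact h3.of_pow

private theorem LSm_sq {η : Om} {j : ℕ} (h : η ^ 3 ^ j = 1) (h2 : η ^ 2 = 1) : η = 1 := by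
  obtain ⟨l, hl⟩ : Odd (3 ^ j) := Odd.pow (by decide)
  rw [hl, pow_succ, pow_mul, h2, one_pow, one_mul] at h
  exact h

/-- The number `κ`. -/
private theorem LSm_kap {P : Ideal ZZ} (hP : Ab3 P) {e j : ℕ} (he : e = 0 ∨ e = 1) {η δ : Om}
    (h1 : η ^ 3 ^ j = 1) (hη : η ≠ 1) (hδ : δ = 1 + (-1) ^ e ∨ (e = 1 ∧ δ = 0)) :
    η + (-1) ^ e * η⁻¹ - δ ≠ 0 ∧ MP P (η + (-1) ^ e * η⁻¹ - δ) := by
  have hPp := hP.1.1
  have h3j : 0 < 3 ^ j := by positivity
  have hη0 : η ≠ 0 := by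
    rintro rfl
    rw [zero_pow h3j.ne'] at h1
    exact zero_ne_one h1
  have hηu : UP P η := CV_up_of_pow hPp h3j h1
  have hm := LSm_mp hP _ _ h1
  rcases he with rfl | rfl
  · have e1 : η + (-1) ^ 0 * η⁻¹ - δ = (η - 1) ^ 2 * η⁻¹ := by
      have hd : δ = 2 := by
        rcases hδ with h | ⟨h, -⟩
        · rw [h]
          norm_num
        · exact absurd h (by norm_num)
      rw [hd]
      field_simp
      ring
    rw [e1]
    exact ⟨mul_ne_zero (pow_ne_zero 2 (sub_ne_zero.2 hη)) (inv_ne_zero hη0),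
      (by rw [pow_two]; exact hm.mul_right hm.vp : MP P ((η - 1) ^ 2)).mul_right hηu.inv.1⟩
  · have hd : δ = 0 := by
      rcases hδ with h | ⟨-, h⟩
      · rw [h]
        norm_num
      · exact h
    have e1 : η + (-1) ^ 1 * η⁻¹ - δ = (η - 1) * (η + 1) * η⁻¹ := by
      rw [hd]
      field_simp
      ring
    rw [e1]
    refine ⟨mul_ne_zero (mul_ne_zero (sub_ne_zero.2 hη) ?_) (inv_ne_zero hη0),
      (hm.mul_right (hηu.1.add DI.VP.one)).mul_right hηu.inv.1⟩
    intro h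
    apply hη
    refine LSm_sq h1 ?_
    have h2 : η = -1 := by linear_combination h
    rw [h2]
    norm_num

variable {n t : ℕ} [Ine3 n t]

/-- The exponent. -/
private def ii (c : ℤ) (ν N j : ℕ) : ℤ := c * ν * 3 ^ (N - 1 - j)

private theorem LSm_eta {N j : ℕ} (hj : j + 2 ≤ N) (c : ℤ) (ν : ℕ) :
    zet (3 ^ N) ^ ii c ν N j = zet (3 ^ (j + 1)) ^ (c * ν : ℤ) := by
  have e : 3 ^ N = 3 ^ (j + 1) * 3 ^ (N - 1 - j) := by
    rw [← pow_add]
    congr 1
    omega
  rw [← LSm_zm (q := 3 ^ (j + 1)) (l := 3 ^ (N - 1 - j)) (by positivity) (by positivity), ← e,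
    ← zpow_natCast (zet (3 ^ N)) (3 ^ (N - 1 - j)), ← zpow_mul]
  congr 1
  unfold ii
  push_cast
  ring

/-- The formula for `x`. -/
private theorem LSm_fou (hFou : C_Fou) {P : Ideal ZZ} (hP : Ab3 P) {f N k e : ℕ} {m : Ideal (OO n t)}
    {R : Finset (Ideal (OO n t))} (χ : Ideal (OO n t) → Om) (hm : FM f m) (hR : FR f R) {j : ℕ}
    (hN : 3 ≤ N) (hk : 1 ≤ k) (hj : j + 2 ≤ N) (c : ℤ) :
    xs P f k e m R χ (c / 3 ^ j) = (3 ^ N)⁻¹ * ∑ a ∈ od N, (zet (3 ^ N) ^ (ii c (NI m) N j * a) +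
        (-1) ^ e * zet (3 ^ N) ^ (-(ii c (NI m) N j * a))) * WW P f N k e m R χ a := by
  have h1 := hFou n t P hP f N k e m R χ hm hR hN hk (c * 3 ^ (N - 2 - j))
  have e1 : (((c * 3 ^ (N - 2 - j) : ℤ) : ℚ) / 3 ^ (N - 2)) = c / 3 ^ j := by
    have e : N - 2 = (N - 2 - j) + j := by omega
    have e' : (3 : ℚ) ^ (N - 2) = 3 ^ (N - 2 - j) * 3 ^ j := by
      rw [← pow_add, ← e]
    rw [e']
    push_cast
    field_simp
  rw [e1] at h1
  rw [h1]
  congr 1
  refine Finset.sum_congr rfl fun a _ => ?_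
  have hz : zet (3 ^ (N - 1)) ^ (c * 3 ^ (N - 2 - j) * NI m * a : ℤ) =
      zet (3 ^ N) ^ (ii c (NI m) N j * a) := by
    have e2 : 3 ^ N = 3 ^ (N - 1) * 3 := by
      rw [← pow_succ]
      congr 1
      omega
    rw [← LSm_zm (q := 3 ^ (N - 1)) (l := 3) (by positivity) (by norm_num), ← e2,
      ← zpow_natCast (zet (3 ^ N)) 3, ← zpow_mul]
    congr 1
    have e3 : (3 : ℤ) ^ (N - 1 - j) = 3 * 3 ^ (N - 2 - j) := by
      rw [← pow_succ']
      congr 1
      omega
    unfold ii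
    rw [e3]
    push_cast
    ring
  rw [zpow_neg, hz, zpow_neg]

private theorem LSm_per {P : Ideal ZZ} {f N k e : ℕ} {m : Ideal (OO n t)} {R : Finset (Ideal (OO n t))}
    {χ : Ideal (OO n t) → Om} (h : ∀ a a' : ℤ, (3 : ℤ) ^ N ∣ a - a' → UU P f N k m R χ a = UU P f N k m R χ a')
    (a a' : ℤ) (ha : (3 : ℤ) ^ N ∣ a - a') : WW P f N k e m R χ a = WW P f N k e m R χ a' := by
  unfold WW
  rw [h a a' ha, h (-a) (-a')]
  have e1 : -a - -a' = -(a - a') := by ring
  rw [e1]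
  exact (dvd_neg).2 ha

private theorem LSm_par {P : Ideal ZZ} {f N k e : ℕ} {m : Ideal (OO n t)} {R : Finset (Ideal (OO n t))}
    {χ : Ideal (OO n t) → Om} (a : ℤ) : WW P f N k e m R χ (-a) = (-1) ^ e * WW P f N k e m R χ a := by
  have hse : ((-1 : Om) ^ e) * (-1) ^ e = 1 := by
    rw [← mul_pow]
    norm_num
  unfold WW
  rw [neg_neg]
  linear_combination (-UU P f N k m R χ (-a)) * hse

private theorem LSm_act {P : Ideal ZZ} {f N k e : ℕ} {m : Ideal (OO n t)} {R : Finset (Ideal (OO n t))}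
    {χ : Ideal (OO n t) → Om} (hA : ∀ (a : ℤ) (h : OO n t) (τ : Gal(Om/ℚ)), ¬ (3 : ℤ) ∣ a → Cls P (f * NI m) N h τ →
      τ (UU P f N k m R χ a) = UU P f N k m R χ (Nm h * a)) (a : ℤ) (h : OO n t) (τ : Gal(Om/ℚ))
    (ha : ¬ (3 : ℤ) ∣ a) (hc : Cls P (f * NI m) N h τ) :
    τ (WW P f N k e m R χ a) = WW P f N k e m R χ (Nm h * a) := by
  unfold WW
  have ha' : ¬ (3 : ℤ) ∣ -a := by omega
  have e1 : Nm h * -a = -(Nm h * a) := by ring
  rw [map_add, map_mul, map_pow, map_neg, map_one, hA a h τ ha hc, hA (-a) h τ ha' hc, e1]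

private theorem LSm_num {v : ℚ} (hv : 0 < v) : ∃ N1 : ℕ, ∀ N : ℕ, N1 ≤ N → (6 : ℚ) / 3 ^ N < v := by
  obtain ⟨N1, hN1⟩ := exists_nat_gt (6 / v)
  refine ⟨N1, fun N hN => ?_⟩
  have h1 : (6 : ℚ) / v < 3 ^ N := by
    refine hN1.trans_le ?_
    have h3 : N1 ≤ 3 ^ N := hN.trans (Nat.lt_pow_self (by norm_num)).le
    exact_mod_cast h3
  rw [div_lt_iff₀ (by positivity)]
  rw [div_lt_iff₀ hv] at h1
  linarith

/-- The product with `κ`. -/
private theorem LSm_ge {P : Ideal ZZ} (hP : Ab3 P) {κ y : Om} {v q : ℚ} (hv : vP P κ = v) (hq : q < v)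
    (hy : GE P (3 / 2 - q) y) : GE P (1 / 2) (κ * y / 3) := by
  have hPp := hP.1.1
  have h := ((show GE P v κ from Or.inr hv.ge).mul (pl hP) hy).div (pl hP) (y := ((3 : ℕ) : Om)) (by norm_num)
  rw [DL.vl_two (pl hP), Nat.cast_ofNat] at h
  exact h.mono (by linarith)

theorem tLSm : S_LSm := by
  intro _ hUA hAbs hFou hTrW hOd n t _ f k e m R χ P hm hR hRC hχ hP hk he hty hyp
  have hPp := hP.1.1
  have hk1 : 1 ≤ k := by
    rcases hk with h | h | h <;> omega
  obtain ⟨-, -, -, -, -, -, hm0, hm3, -⟩ := w_fm hm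
  have hf' : Fok (f * NI m) :=
    ⟨Nat.mul_pos hm.pos hm0, Dvd.dvd.mul_right hm.dvd _, Nat.Coprime.mul_left hm.cop hm3⟩
  -- the choice of `N`
  have hchoice : ∀ (j : ℕ) (v : ℚ), 0 < v → ∃ N : ℕ, 3 ≤ N ∧ j + 2 ≤ N ∧ (6 : ℚ) / 3 ^ N < v ∧
      Hy P f N k e m R χ := by
    intro j v hv
    obtain ⟨N1, hN1⟩ := LSm_num hv
    obtain ⟨N, hN, T, hT, D, hD, hd⟩ := hyp (max 3 (max (j + 2) N1))
    have hN3 : 3 ≤ N := (le_max_left _ _).trans hN
    exact ⟨N, hN3, (le_max_left _ _).trans ((le_max_right _ _).trans hN),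
      hN1 N ((le_max_right _ _).trans ((le_max_right _ _).trans hN)),
      hm, hR, hRC, hχ, hP, hk, he, hty, hN3, T, hT, D, hD, hd⟩
  have hζp : ∀ N : ℕ, IsPrimitiveRoot (zet (3 ^ N)) (3 ^ N) := fun N => LSm_prim (by positivity)
  have hη1 : ∀ (c : ℤ) (j : ℕ), (zet (3 ^ (j + 1)) ^ (c * NI m : ℤ)) ^ 3 ^ (j + 1) = 1 := by
    intro c j
    rw [← zpow_natCast, ← zpow_mul, mul_comm, zpow_mul, zpow_natCast, CV_zet_pow (by positivity), one_zpow]
  have hone : ∀ (c : ℤ) (j N : ℕ), j + 2 ≤ N → zet (3 ^ (j + 1)) ^ (c * NI m : ℤ) = 1 → ∀ u : ℤ, ∀ a : ℕ,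
      zet (3 ^ N) ^ (ii (u * c) (NI m) N j * a) = 1 ∧ zet (3 ^ N) ^ (-(ii (u * c) (NI m) N j * a)) = 1 := by
    intro c j N hj h u a
    have e1 : ii (u * c) (NI m) N j = ii c (NI m) N j * u := by
      unfold ii
      ring
    have h1 : zet (3 ^ N) ^ (ii (u * c) (NI m) N j * a) = 1 := by
      rw [e1, mul_assoc, zpow_mul, LSm_eta hj, h, one_zpow]
    refine ⟨h1, ?_⟩
    rw [zpow_neg, h1, inv_one]
  constructor
  · intro hke c j
    by_cases hη : zet (3 ^ (j + 1)) ^ (c * NI m : ℤ) = 1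
    · have h1 := LSm_fou hFou hP (k := k) (e := e) χ hm hR (N := j + 3) (j := j) (by omega) hk1 (by omega) c
      have h0 := LSm_fou hFou hP (k := k) (e := e) χ hm hR (N := j + 3) (j := j) (by omega) hk1 (by omega) 0
      rw [Int.cast_zero, zero_div] at h0
      have e1 : xs P f k e m R χ (c / 3 ^ j) - xs P f k e m R χ 0 = 0 := by
        rw [h1, h0, ← mul_sub, ← Finset.sum_sub_distrib]
        have e2 : ∀ a ∈ od (j + 3), (zet (3 ^ (j + 3)) ^ (ii c (NI m) (j + 3) j * a) +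
            (-1) ^ e * zet (3 ^ (j + 3)) ^ (-(ii c (NI m) (j + 3) j * a))) * WW P f (j + 3) k e m R χ a -
            (zet (3 ^ (j + 3)) ^ (ii 0 (NI m) (j + 3) j * a) +
            (-1) ^ e * zet (3 ^ (j + 3)) ^ (-(ii 0 (NI m) (j + 3) j * a))) * WW P f (j + 3) k e m R χ a = 0 := by
          intro a _
          have h3 := hone c j (j + 3) (by omega) hη 1 a
          have h4 := hone c j (j + 3) (by omega) hη 0 a
          rw [one_mul] at h3
          rw [zero_mul] at h4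
          rw [h3.1, h3.2, h4.1, h4.2, sub_self]
        rw [Finset.sum_eq_zero e2, mul_zero]
      rw [e1]
      exact DI.MP.zero
    · obtain ⟨hκ0, hκm⟩ := LSm_kap hP he (hη1 c j) hη (Or.inl rfl)
      obtain ⟨N, hN3, hNj, hNv, hy⟩ := hchoice j _ ((DL.vl_pos (pl hP) hκ0).2 hκm)
      obtain ⟨hA1, hA2⟩ := hUA n t P hP f N k m R χ hm hR hχ (by omega) hk1
      have hz := LSm_ge hP rfl hNv ((hAbs n t P f N k e m R χ hy).1 hke)
      have h2 := hTrW n t P hP (f * NI m) N e (zet (3 ^ N)) (ii c (NI m) N j) (1 + (-1) ^ e)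
        (WW P f N k e m R χ) hf' (by omega) (hζp N) (Or.inr rfl) (LSm_per hA1) LSm_par (LSm_act hA2)
        (by rw [zpow_neg, LSm_eta hNj]; exact hz)
      have h1 := LSm_fou hFou hP (k := k) (e := e) χ hm hR (N := N) (j := j) hN3 hk1 hNj c
      have h0 := LSm_fou hFou hP (k := k) (e := e) χ hm hR (N := N) (j := j) hN3 hk1 hNj 0
      rw [Int.cast_zero, zero_div] at h0
      have e1 : xs P f k e m R χ (c / 3 ^ j) - xs P f k e m R χ 0 = (3 ^ N)⁻¹ * ∑ a ∈ od N,
          (zet (3 ^ N) ^ (ii c (NI m) N j * a) + (-1) ^ e * zet (3 ^ N) ^ (-(ii c (NI m) N j * a)) -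
            (1 + (-1) ^ e)) * WW P f N k e m R χ a := by
        rw [h1, h0, ← mul_sub, ← Finset.sum_sub_distrib]
        congr 1
        refine Finset.sum_congr rfl fun a _ => ?_
        have e2 : ii 0 (NI m) N j = 0 := by
          unfold ii
          ring
        rw [e2, zero_mul, neg_zero, zpow_zero]
        ring
      rw [e1]
      exact h2.mp (pl hP) one_pos
  · intro hk1' he1 c u j hu
    subst hk1' he1
    have hu3 : ¬ (3 : ℤ) ∣ u := by omega
    have ecast : ((u : ℚ) * c / 3 ^ j) = (((u * c : ℤ) : ℚ) / 3 ^ j) := by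
      push_cast
      ring
    rw [ecast]
    by_cases hη : zet (3 ^ (j + 1)) ^ (c * NI m : ℤ) = 1
    · have h1 := LSm_fou hFou hP (k := 1) (e := 1) χ hm hR (N := j + 3) (j := j) (by omega) hk1 (by omega) c
      have h0 := LSm_fou hFou hP (k := 1) (e := 1) χ hm hR (N := j + 3) (j := j) (by omega) hk1 (by omega) (u * c)
      have e1 : xs P f 1 1 m R χ (((u * c : ℤ) : ℚ) / 3 ^ j) - xs P f 1 1 m R χ (c / 3 ^ j) = 0 := by
        rw [h1, h0, ← mul_sub, ← Finset.sum_sub_distrib]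
        have e2 : ∀ a ∈ od (j + 3), (zet (3 ^ (j + 3)) ^ (ii (u * c) (NI m) (j + 3) j * a) +
            (-1) ^ 1 * zet (3 ^ (j + 3)) ^ (-(ii (u * c) (NI m) (j + 3) j * a))) * WW P f (j + 3) 1 1 m R χ a -
            (zet (3 ^ (j + 3)) ^ (ii c (NI m) (j + 3) j * a) +
            (-1) ^ 1 * zet (3 ^ (j + 3)) ^ (-(ii c (NI m) (j + 3) j * a))) * WW P f (j + 3) 1 1 m R χ a = 0 := by
          intro a _
          have h3 := hone c j (j + 3) (by omega) hη 1 a
          have h4 := hone c j (j + 3) (by omega) hη u a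
          rw [one_mul] at h3
          rw [h3.1, h3.2, h4.1, h4.2, sub_self]
        rw [Finset.sum_eq_zero e2, mul_zero]
      rw [e1]
      exact DI.MP.zero
    · obtain ⟨hκ0, hκm⟩ := LSm_kap hP he (hη1 c j) hη (Or.inr ⟨rfl, rfl⟩)
      obtain ⟨N, hN3, hNj, hNv, hy⟩ := hchoice j _ ((DL.vl_pos (pl hP) hκ0).2 hκm)
      obtain ⟨hA1, hA2⟩ := hUA n t P hP f N 1 m R χ hm hR hχ (by omega) hk1
      -- the inverse of `u`
      obtain ⟨u', hu'⟩ : ∃ u' : ℤ, (3 : ℤ) ^ N ∣ u' * u - 1 := by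
        have h5 : IsCoprime u ((3 : ℤ) ^ N) := by
          refine IsCoprime.pow_right ?_
          rw [isCoprime_comm]
          exact Int.prime_three.coprime_iff_not_dvd.2 hu3
        obtain ⟨x, y, hxy⟩ := h5
        exact ⟨x, -y, by linear_combination hxy⟩
      have hu'1 : (3 : ℤ) ∣ u' - 1 := by
        have h5 : (3 : ℤ) ∣ u' * u - 1 := (dvd_pow_self 3 (by omega)).trans hu'
        have e5 : u' - 1 = (u' * u - 1) - u' * (u - 1) := by ring
        rw [e5]
        exact dvd_sub h5 (Dvd.dvd.mul_left hu _)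
      have hu'3 : ¬ (3 : ℤ) ∣ u' := by omega
      have hper := LSm_per (e := 1) hA1
      have hpar : ∀ a : ℤ, WW P f N 1 1 m R χ (-a) = (-1) ^ 1 * WW P f N 1 1 m R χ a := LSm_par
      have hact := LSm_act (e := 1) hA2
      have hY1 : GE P (3 / 2 - 6 / 3 ^ N) (WW P f N 1 1 m R χ (u' * 1) - WW P f N 1 1 m R χ 1) := by
        rw [mul_one]
        exact (hAbs n t P f N 1 1 m R χ hy).2 rfl rfl u' hu'1
      have hz := LSm_ge hP rfl hNv hY1
      have h2 := hTrW n t P hP (f * NI m) N 1 (zet (3 ^ N)) (ii c (NI m) N j) 0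
        (fun a => WW P f N 1 1 m R χ (u' * a) - WW P f N 1 1 m R χ a) hf' (by omega) (hζp N) (Or.inl rfl)
        (fun a a' ha => by
          have h6 : (3 : ℤ) ^ N ∣ u' * a - u' * a' := by
            rw [← mul_sub]
            exact Dvd.dvd.mul_left ha _
          change WW P f N 1 1 m R χ (u' * a) - WW P f N 1 1 m R χ a = WW P f N 1 1 m R χ (u' * a') - WW P f N 1 1 m R χ a'
          rw [hper _ _ h6, hper _ _ ha])
        (fun a => by
          change WW P f N 1 1 m R χ (u' * -a) - WW P f N 1 1 m R χ (-a) =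
            (-1) ^ 1 * (WW P f N 1 1 m R χ (u' * a) - WW P f N 1 1 m R χ a)
          rw [mul_neg, hpar, hpar]
          ring)
        (fun a h τ ha hc => by
          change τ (WW P f N 1 1 m R χ (u' * a) - WW P f N 1 1 m R χ a) =
            WW P f N 1 1 m R χ (u' * (Nm h * a)) - WW P f N 1 1 m R χ (Nm h * a)
          have h7 : ¬ (3 : ℤ) ∣ u' * a := fun h8 => by
            rcases Int.prime_three.dvd_or_dvd h8 with h9 | h9
            · exact hu'3 h9
            · exact ha h9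
          have e6 : Nm h * (u' * a) = u' * (Nm h * a) := by ring
          rw [map_sub, hact _ h τ h7 hc, hact _ h τ ha hc, e6])
        (by rw [zpow_neg, LSm_eta hNj]; exact hz)
      have h1 := LSm_fou hFou hP (k := 1) (e := 1) χ hm hR (N := N) (j := j) hN3 hk1 hNj c
      have h0 := LSm_fou hFou hP (k := 1) (e := 1) χ hm hR (N := N) (j := j) hN3 hk1 hNj (u * c)
      have hζ1 : zet (3 ^ N) ^ ((3 ^ N : ℕ) : ℤ) = 1 := by
        rw [zpow_natCast]
        exact CV_zet_pow (by positivity)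
      -- the function `F`
      have hFp : ∀ a a' : ℤ, (3 : ℤ) ^ N ∣ a - a' →
          (zet (3 ^ N) ^ (ii c (NI m) N j * a) + (-1) ^ 1 * zet (3 ^ N) ^ (-(ii c (NI m) N j * a))) *
            WW P f N 1 1 m R χ (u' * a) =
          (zet (3 ^ N) ^ (ii c (NI m) N j * a') + (-1) ^ 1 * zet (3 ^ N) ^ (-(ii c (NI m) N j * a'))) *
            WW P f N 1 1 m R χ (u' * a') := by
        intro a a' ha
        have h6 : (3 : ℤ) ^ N ∣ u' * a - u' * a' := by
          rw [← mul_sub]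
          exact Dvd.dvd.mul_left ha _
        have h7 : zet (3 ^ N) ^ (ii c (NI m) N j * a) = zet (3 ^ N) ^ (ii c (NI m) N j * a') := by
          refine CV_zet_congr (by positivity) ?_
          rw [← mul_sub]
          push_cast
          exact Dvd.dvd.mul_left ha _
        rw [hper _ _ h6, zpow_neg, zpow_neg, h7]
      have hF := (hOd N (by omega)).2.2.2.2 (fun a : ℤ =>
          (zet (3 ^ N) ^ (ii c (NI m) N j * a) + (-1) ^ 1 * zet (3 ^ N) ^ (-(ii c (NI m) N j * a))) *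
            WW P f N 1 1 m R χ (u' * a))
        (fun a a' ha => by
          rcases ha with ha | ha
          · exact hFp a a' ha
          · change (zet (3 ^ N) ^ (ii c (NI m) N j * a) + (-1) ^ 1 * zet (3 ^ N) ^ (-(ii c (NI m) N j * a))) *
              WW P f N 1 1 m R χ (u' * a) =
              (zet (3 ^ N) ^ (ii c (NI m) N j * a') + (-1) ^ 1 * zet (3 ^ N) ^ (-(ii c (NI m) N j * a'))) *
              WW P f N 1 1 m R χ (u' * a')
            rw [hFp a (-a') (by rwa [sub_neg_eq_add])]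
            have e6 : u' * -a' = -(u' * a') := by ring
            have e7 : ii c (NI m) N j * -a' = -(ii c (NI m) N j * a') := by ring
            rw [e6, e7, neg_neg, hpar]
            ring) u hu3
      have e0 : ∑ a ∈ od N, (zet (3 ^ N) ^ (ii (u * c) (NI m) N j * a) +
          (-1) ^ 1 * zet (3 ^ N) ^ (-(ii (u * c) (NI m) N j * a))) * WW P f N 1 1 m R χ a =
          ∑ a ∈ od N, (zet (3 ^ N) ^ (ii c (NI m) N j * a) + (-1) ^ 1 * zet (3 ^ N) ^ (-(ii c (NI m) N j * a))) *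
            WW P f N 1 1 m R χ (u' * a) := by
        rw [← hF]
        refine Finset.sum_congr rfl fun a _ => ?_
        have e6 : ii (u * c) (NI m) N j * a = ii c (NI m) N j * (u * a) := by
          unfold ii
          ring
        have h8 : WW P f N 1 1 m R χ (u' * (u * a)) = WW P f N 1 1 m R χ a := by
          apply hper
          have e8 : u' * (u * a) - a = (u' * u - 1) * a := by ring
          rw [e8]
          exact Dvd.dvd.mul_right hu' _
        rw [e6, h8]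
      have e1 : xs P f 1 1 m R χ (((u * c : ℤ) : ℚ) / 3 ^ j) - xs P f 1 1 m R χ (c / 3 ^ j) =
          (3 ^ N)⁻¹ * ∑ a ∈ od N,
          (zet (3 ^ N) ^ (ii c (NI m) N j * a) + (-1) ^ 1 * zet (3 ^ N) ^ (-(ii c (NI m) N j * a)) - 0) *
            (WW P f N 1 1 m R χ (u' * a) - WW P f N 1 1 m R χ a) := by
        rw [h1, h0, e0, ← mul_sub, ← Finset.sum_sub_distrib]
        congr 1
        refine Finset.sum_congr rfl fun a _ => ?_
        ring
      rw [e1]
      exact h2.mp (pl hP) one_pos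

end Pool.Agent.DM.GC
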