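import Pool.Agent.Lib.DM.GC.Spec

/-!
# Theorem DM, module Od: the half system `od N`
-/

set_option autoImplicit false

open scoped Pointwise

noncomputable section

namespace Pool.Agent.DM.GC

open Pool.Agent.MuZ Pool.Agent.FW Pool.Agent.DN Pool.Agent.DM
open Pool.Agent.DI (io ofC io_inj exists_io io_ofC ofC_io VP MP UP TP ex)
open Pool.Agent.DT (kap cbr)
open Pool.Agent.DM.G (CN)
open Pool.Agent.DM.GL (vP GE pl Cls IsR Hq Un Cn od)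

private theorem Od_mem {N a : ℕ} : a ∈ od N ↔ a < (3 ^ N + 1) / 2 ∧ a % 3 ≠ 0 := by
  unfold od
  rw [Finset.mem_filter, Finset.mem_range]

private theorem Od_odd (N : ℕ) : ∃ K : ℕ, 3 ^ N = 2 * K + 1 := by
  have : Odd (3 ^ N) := Odd.pow (by decide)
  exact this

private theorem Od_not {N a : ℕ} (ha : a ∈ od N) : ¬ (3 : ℤ) ∣ (a : ℤ) := by
  obtain ⟨-, h⟩ := Od_mem.1 ha
  omega

private theorem Od_ex {N : ℕ} (hN : 1 ≤ N) (s : ℤ) (hs : ¬ (3 : ℤ) ∣ s) :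
    ∃ a ∈ od N, (3 : ℤ) ^ N ∣ s - a ∨ (3 : ℤ) ^ N ∣ s + a := by
  obtain ⟨K, hK⟩ := Od_odd N
  have hq : (0 : ℤ) < 3 ^ N := by positivity
  have hKz : (3 : ℤ) ^ N = 2 * K + 1 := by exact_mod_cast hK
  obtain ⟨r, hr⟩ : ∃ r : ℕ, (r : ℤ) = s % 3 ^ N :=
    ⟨(s % 3 ^ N).toNat, Int.toNat_of_nonneg (Int.emod_nonneg _ hq.ne')⟩
  have hr1 : (r : ℤ) < 3 ^ N := by
    have := Int.emod_lt_of_pos s hq
    rwa [← hr] at this
  have h5 := Int.emod_add_mul_ediv s (3 ^ N)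
  rw [← hr] at h5
  have h3 : (3 : ℤ) ∣ 3 ^ N := dvd_pow_self 3 (by omega)
  have hr3 : ¬ (3 : ℤ) ∣ r := fun h => hs (by
    rw [← h5]
    exact dvd_add h (Dvd.dvd.mul_right h3 _))
  by_cases hc : r ≤ K
  · refine ⟨r, Od_mem.2 ⟨by omega, by omega⟩, Or.inl ⟨s / 3 ^ N, by linear_combination -h5⟩⟩
  · have hr2 : r < 3 ^ N := by exact_mod_cast hr1
    have h3n : 3 ∣ 3 ^ N := dvd_pow_self 3 (by omega)
    refine ⟨3 ^ N - r, Od_mem.2 ⟨by omega, by omega⟩, Or.inr ⟨s / 3 ^ N + 1, ?_⟩⟩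
    rw [Nat.cast_sub hr2.le]
    push_cast
    linear_combination -h5

private theorem Od_uni {N : ℕ} {a a' : ℕ} (ha : a ∈ od N) (ha' : a' ∈ od N)
    (h : (3 : ℤ) ^ N ∣ (a : ℤ) - a' ∨ (3 : ℤ) ^ N ∣ (a : ℤ) + a') : a = a' := by
  obtain ⟨K, hK⟩ := Od_odd N
  have hKz : (3 : ℤ) ^ N = 2 * K + 1 := by exact_mod_cast hK
  obtain ⟨h1, h2⟩ := Od_mem.1 ha
  obtain ⟨h3, h4⟩ := Od_mem.1 ha'
  rcases h with h | h
  · have h7 : (a : ℤ) - a' = 0 := by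
      apply Int.eq_zero_of_abs_lt_dvd h
      rw [abs_lt]
      constructor <;> omega
    omega
  · have h7 : (a : ℤ) + a' = 0 := by
      apply Int.eq_zero_of_abs_lt_dvd h
      rw [abs_lt]
      constructor <;> omega
    omega

private theorem Od_two {N : ℕ} {a : ℕ} (ha : a ∈ od N) : ¬ (3 : ℤ) ^ N ∣ 2 * (a : ℤ) := by
  obtain ⟨K, hK⟩ := Od_odd N
  have hKz : (3 : ℤ) ^ N = 2 * K + 1 := by exact_mod_cast hK
  obtain ⟨h1, h2⟩ := Od_mem.1 ha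
  intro h
  have h7 : 2 * (a : ℤ) = 0 := by
    apply Int.eq_zero_of_abs_lt_dvd h
    rw [abs_lt]
    constructor <;> omega
  omega

private theorem Od_perm {N : ℕ} (hN : 1 ≤ N) (F : ℤ → Om)
    (hF : ∀ a a' : ℤ, ((3 : ℤ) ^ N ∣ a - a' ∨ (3 : ℤ) ^ N ∣ a + a') → F a = F a') (u : ℤ) (hu : ¬ (3 : ℤ) ∣ u) :
    ∑ a ∈ od N, F (u * a) = ∑ a ∈ od N, F a := by
  classical
  have hcop : IsCoprime ((3 : ℤ) ^ N) u := ((Int.prime_three.coprime_iff_not_dvd).2 hu).pow_left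
  have hex : ∀ a : ℕ, ∃ b : ℕ, a ∈ od N → b ∈ od N ∧ ((3 : ℤ) ^ N ∣ u * a - b ∨ (3 : ℤ) ^ N ∣ u * a + b) := by
    intro a
    by_cases ha : a ∈ od N
    · obtain ⟨b, hb, h⟩ := Od_ex hN (u * a) (fun h => (Int.prime_three.dvd_or_dvd h).elim hu (Od_not ha))
      exact ⟨b, fun _ => ⟨hb, h⟩⟩
    · exact ⟨0, fun h => absurd h ha⟩
  choose π hπ using hex
  have hinj : Set.InjOn π (od N : Set ℕ) := by
    intro a ha a' ha' h
    have ha := Finset.mem_coe.1 ha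
    have ha' := Finset.mem_coe.1 ha'
    obtain ⟨-, h1⟩ := hπ a ha
    obtain ⟨-, h2⟩ := hπ a' ha'
    rw [← h] at h2
    refine Od_uni ha ha' ?_
    have key : (3 : ℤ) ^ N ∣ u * ((a : ℤ) - a') ∨ (3 : ℤ) ^ N ∣ u * ((a : ℤ) + a') := by
      rcases h1 with ⟨x, h1⟩ | ⟨x, h1⟩ <;> rcases h2 with ⟨y, h2⟩ | ⟨y, h2⟩
      · exact Or.inl ⟨x - y, by linear_combination h1 - h2⟩
      · exact Or.inr ⟨x + y, by linear_combination h1 + h2⟩
      · exact Or.inr ⟨x + y, by linear_combination h1 + h2⟩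
      · exact Or.inl ⟨x - y, by linear_combination h1 - h2⟩
    exact key.imp (fun h => hcop.dvd_of_dvd_mul_left h) (fun h => hcop.dvd_of_dvd_mul_left h)
  have hmaps : Set.MapsTo π (od N : Set ℕ) (od N : Set ℕ) := fun a ha =>
    Finset.mem_coe.2 (hπ a (Finset.mem_coe.1 ha)).1
  have hsurj : Set.SurjOn π (od N : Set ℕ) (od N : Set ℕ) :=
    Finset.surjOn_of_injOn_of_card_le π hmaps hinj le_rfl
  refine Finset.sum_nbij π (fun a ha => (hπ a ha).1) hinj hsurj ?_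
  intro a ha
  exact hF _ _ (hπ a ha).2

theorem tOd : S_Od := by
  intro N hN
  exact ⟨fun s hs => Od_ex hN s hs, fun a ha => Od_not ha, fun a ha a' ha' h => Od_uni ha ha' h,
    fun a ha => Od_two ha, fun F hF u hu => Od_perm hN F hF u hu⟩

end Pool.Agent.DM.GC
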