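import Pool.Agent.Lib.DM.GC.Spec

/-!
# Theorem DM, part GC, module SU: the comparison of `β` with `zt P β` (helper9; edit of `DN/G/SU.lean` of helper63)
-/

set_option autoImplicit false

open scoped Pointwise

noncomputable section

namespace Pool.Agent.DM.GC

open Pool.Agent.MuZ Pool.Agent.FW Pool.Agent.DN Pool.Agent.DM
open Pool.Agent.DI (io ofC io_inj exists_io io_ofC ofC_io VP MP UP TP ex)
open Pool.Agent.DT (kap cbr)
open Pool.Agent.DM.G (CN)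
open Pool.Agent.DM.GL (vP GE pl Cls IsR Hq Un Cn od)

variable {n t : ℕ}

private theorem SU_q {N : ℕ} (hN : 3 ≤ N) : (11 / 8 - 6 / 3 ^ N : ℚ) ≤ 2 ∧ (2 : ℚ) ≤ N := by
  have h1 : (0 : ℚ) ≤ 6 / 3 ^ N := by positivity
  have h2 : (3 : ℚ) ≤ N := by exact_mod_cast hN
  constructor <;> linarith

private theorem SU_cop [Ine3 n t] {N : ℕ} (hN : 1 ≤ N) {x a : ℤ} (ha : ¬ (3 : ℤ) ∣ a) {v : OO n t}
    (h : (3 : ℤ) ^ N ∣ x * Nm v - a) : Cop v 3 := by
  rw [GL.cop3_iff v, ← GL.three_Nm]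
  intro h1
  apply ha
  have h2 : (3 : ℤ) ∣ x * Nm v := Dvd.dvd.mul_left h1 x
  have h3 : (3 : ℤ) ∣ 3 ^ N := dvd_pow_self 3 (by omega)
  have h4 := dvd_sub h2 (dvd_trans h3 h)
  rwa [sub_sub_cancel] at h4

private theorem SU_pm {N : ℕ} {x y z a : ℤ} (h : (3 : ℤ) ^ N ∣ x * y - a) (hd : (3 : ℤ) ^ N ∣ y - z) :
    (3 : ℤ) ^ N ∣ x * z - a := by
  have e : x * z - a = (x * y - a) - x * (y - z) := by ring
  rw [e]
  exact dvd_sub h (Dvd.dvd.mul_left hd x)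

private theorem SU_pow [SqN n t] {P : Ideal ZZ} (hP : Ab3 P) {M N : ℕ} {u : OO n t}
    (h : ((M * 3 ^ N : ℕ) : OO n t) ∣ u) : GE P N (toO u) := by
  have hPp : P.IsPrime := hP.1.1
  obtain ⟨w, rfl⟩ := h
  have e : toO (((M * 3 ^ N : ℕ) : OO n t) * w) = (3 : ℕ) ^ N * ((M : Om) * toO w) := by
    rw [toO_mul, toO_nat]
    push_cast
    ring
  rw [e]
  exact DL.GE.mul_right (pl hP) (Or.inr (DL.vl_two_pow (pl hP) N).ge) ((DI.VP.nat M).mul (toO_VP w))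

private theorem SU_nine [SqN n t] {P : Ideal ZZ} (hP : Ab3 P) {u : OO n t}
    (h : (9 : OO n t) ∣ u) : GE P 2 (toO u) := by
  have h1 : ((1 * 3 ^ 2 : ℕ) : OO n t) ∣ u := by
    have e : ((1 * 3 ^ 2 : ℕ) : OO n t) = 9 := by norm_num
    rwa [e]
  have h2 := SU_pow hP h1
  exact_mod_cast h2

private theorem SU_coset (d2 : S_D2) (act : GL.C_Act) (sur : GL.C_Sur)
    (tra : GL.C_Tra) (t0 : S_T0) (pnt : GL.C_Pnt) (cht : C_ChT) (gb : C_Gb)
    [Ine3 n t] {P : Ideal ZZ} (hP : Ab3 P) {f N k : ℕ} {m b : Ideal (OO n t)}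
    {χ : Ideal (OO n t) → Om} (hm : FM f m) (hb : FB f b) (hχ : IsChi (3 * f) χ) (hN : 3 ≤ N)
    (hff : Fok (f * NI m))
    {T : Finset (OO n t)} (hT : IsR N (Hq (f * NI m) N) T) {v : OO n t} (hv3 : Cop v 3)
    (hvf : (f : OO n t) ∣ v - 1) :
    GE P (11 / 8 - 6 / 3 ^ N) (∑ h ∈ T, χ b * (zt P (h * v) ^ (k - 1) *
      ((toO (h * v) - zt P (h * v)) * gB f N m b (h * v)))) := by
  classical
  have hPp : P.IsPrime := hP.1.1
  have h3 := pl hP
  have hf0 := hm.pos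
  obtain ⟨h20, hm30, hm3, hmf, hmo, hmc, hm0, hmc3, hmcf⟩ := w_fm hm
  obtain ⟨hbG, hbG15, hb2, hb3, hbf, hmb⟩ := w_fb hm hb
  obtain ⟨z0, d, hPt, -, -⟩ := pnt n t f N hm.toFok (by omega)
  have hcop3 : ∀ h ∈ T, (3 : OO n t) ∣ h - 1 := fun h hh =>
    dvd_trans ⟨3, by norm_num⟩ (hT.mem h hh).2.1
  have hcop : ∀ h ∈ T, Cop h 3 := by
    intro h hh
    apply CV_cop_of_dvd
    rw [w_cast3]
    exact hcop3 h hh
  have hone : ∀ h ∈ T, (f : OO n t) ∣ h - 1 := fun h hh =>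
    CV_cast_dvd (Dvd.intro _ rfl) (hT.mem h hh).1
  have hex : ∀ h : OO n t, ∃ τ : Gal(Om/ℚ), h ∈ T → Cls P (f * NI m) N h τ := by
    intro h
    by_cases hh : h ∈ T
    · obtain ⟨τ, hτ⟩ := sur n t P hP (f * NI m) N hff (by omega) h (hT.mem h hh).1
        (hcop h hh)
      exact ⟨τ, fun _ => hτ⟩
    · exact ⟨1, fun h' => absurd h' hh⟩
  choose s hs using hex
  obtain ⟨z, hz⟩ : ∃ z : ℂ, z = toC v / (f * 3 ^ N : ℕ) := ⟨_, rfl⟩
  have hv3f : Cop v (3 * f) := (CV_cop_mul).2 ⟨hv3, CV_cop_of_dvd hvf⟩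
  obtain ⟨g1, g2, -, -, -⟩ := gb n t P hP f N m b hm (by omega) hb
  have hzn : z ∉ Lam (m * b) := by
    rw [hz]
    exact g2 v hv3f
  have hVx : VP P (gO m b z) := by
    rw [hz]
    exact (g1 v hvf).1
  have hzl : ((f * NI m * 3 ^ N : ℕ) : ℂ) * z ∈ Lam b := by
    have e : ((f * NI m * 3 ^ N : ℕ) : ℂ) * z = toC (((NI m : ℕ) : OO n t) * v) := by
      rw [toC_mul, toC_nat, hz]
      push_cast
      have h0 : (f : ℂ) ≠ 0 := by exact_mod_cast hf0.ne'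
      field_simp
    rw [e]
    exact fun u _ => ⟨u * (((NI m : ℕ) : OO n t) * v), (toC_mul u _).symm⟩
  have hact : ∀ (h : OO n t) (τ : Gal(Om/ℚ)), Cls P (f * NI m) N h τ →
      τ (gO m b z) = gO m b (toC h * z) := fun h τ hτ =>
    (((act n t P hP (f * NI m) N h τ hff (by omega) hτ).2 b hbG).2.2.2.2 m hm.ne hm30
      (Dvd.intro_left _ rfl) z hzl hzn).1
  have hfix : ∀ τ : Gal(Om/ℚ), Cls P (f * NI m) N (1 : OO n t) τ → τ (gO m b z) = gO m b z := by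
    intro τ hτ
    have h4 := hact 1 τ hτ
    rwa [toC_one, one_mul] at h4
  have htr := tra n t P hP f N z0 d hPt hN (f * NI m) hff (Dvd.intro _ rfl) (gO m b z) hfix hVx T s
    hT (fun h hh => hs h hh)
  have hvz : GE P 1 (toO v - zt P v) := by
    have h4 : TP P 3 (zt P v - toO v) := (w_zt t0 hP hv3).2.1
    have h5 : TP P ((3 : ℕ) : Om) (zt P v - toO v) := by exact_mod_cast h4
    have h6 := DL.GE.neg h3 ((DL.GE.two_iff h3).2 h5)
    rwa [neg_sub] at h6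
  have hrO : VP P (rO (⊤ : Ideal (OO n t)) b) := by
    have h4 := ((d2 n t P hP ⊤ ⟨(w_fb_top f).ne, CV_top _⟩).2.2.2.2.2.2.2 b hbG.1 hbG.2).1
    rwa [Ideal.mul_top] at h4
  have hχb : VP P (χ b) := ((cht n t P hP f χ hm.toFok hχ).1 b).1
  have hztk : VP P (zt P v ^ (k - 1)) := ((w_zt t0 hP hv3).2.2.1.1).pow _
  have hztv : ∀ h ∈ T, zt P (h * v) = zt P v := by
    intro h hh
    refine w_zt_congr t0 hP (cop_mul (hcop h hh) hv3) hv3 ?_
    have e : h * v - v = (h - 1) * v := by ring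
    rw [e]
    exact Dvd.dvd.mul_right (hcop3 h hh) _
  have hterm : ∀ h ∈ T, χ b * (zt P (h * v) ^ (k - 1) *
      ((toO (h * v) - zt P (h * v)) * gB f N m b (h * v))) =
      χ b * zt P v ^ (k - 1) * rO (⊤ : Ideal (OO n t)) b * ((toO v - zt P v) * s h (gO m b z)) +
      χ b * (zt P v ^ (k - 1) * (toO (h - 1) * toO v * gB f N m b (h * v))) := by
    intro h hh
    have e1 : gO m b (toC (h * v) / (f * 3 ^ N : ℕ)) = s h (gO m b z) := by
      rw [hact h (s h) (hs h hh), hz, toC_mul, mul_div_assoc]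
    rw [hztv h hh]
    unfold gB
    rw [e1, toO_mul, toO_sub, toO_one]
    ring
  rw [Finset.sum_congr rfl hterm, Finset.sum_add_distrib, ← Finset.mul_sum, ← Finset.mul_sum]
  refine DL.GE.add h3 ?_ ?_
  · refine DL.GE.mul_left h3 ((hχb.mul hztk).mul hrO) ?_
    have h4 := DL.GE.mul h3 hvz htr
    have e : (1 + (3 / 8 - 6 / 3 ^ N) : ℚ) = 11 / 8 - 6 / 3 ^ N := by ring
    rwa [e] at h4
  · refine DL.GE.mono (DL.GE.sum h3 T _ (fun h hh => ?_)) (SU_q hN).1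
    refine DL.GE.mul_left h3 hχb (DL.GE.mul_left h3 hztk (DL.GE.mul_right h3
      (DL.GE.mul_right h3 (SU_nine hP (hT.mem h hh).2.1) (toO_VP v)) ?_))
    refine (g1 (h * v) ?_).2
    have e : h * v - 1 = (h - 1) * v + (v - 1) := by ring
    rw [e]
    exact dvd_add (Dvd.dvd.mul_right (hone h hh) _) hvf

theorem tSU : S_SU := by
  intro d2 act rep sur tra zt' pnt cht gb cos n t _ P hP f N k m R χ a hm hR hχ hN ha
  classical
  have t0 : S_T0 := zt'.1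
  have hPp : P.IsPrime := hP.1.1
  have h3 := pl hP
  obtain ⟨hq1, hq2⟩ := SU_q hN
  obtain ⟨h20, hm30, hm3, hmf, hmo, hmc, hm0, hmc3, hmcf⟩ := w_fm hm
  have hff : Fok (f * NI m) :=
    ⟨Nat.mul_pos hm.pos hm0, Dvd.dvd.mul_right hm.dvd _, Nat.Coprime.mul_left hm.cop hmc3⟩
  unfold SI
  refine DL.GE.sum h3 R _ (fun b hb => ?_)
  have hbF : FB f b := hR b hb
  obtain ⟨T, hT⟩ := (rep n t N (by omega)).1 (Hq (f * NI m) N)
  have hχb : VP P (χ b) := ((cht n t P hP f χ hm.toFok hχ).1 b).1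
  obtain ⟨g1, -, g3, -, -⟩ := gb n t P hP f N m b hm (by omega) hbF
  have key := cos n t f (f * NI m) N hm.toFok hff (Dvd.intro _ rfl) (by omega) T hT
    (Om ⧸ GEs P hP (11 / 8 - 6 / 3 ^ N))
    (fun v => QuotientAddGroup.mk (χ b * (zt P v ^ (k - 1) *
      ((toO v - zt P v) * gB f N m b v))))
    (fun v => (3 : ℤ) ^ N ∣ NI b * Nm v - a) (fun v hv => SU_cop (by omega) ha hv) ?_ ?_ ?_ ?_
  · refine (GEs_zero hP).1 ?_
    refine Eq.trans ?_ key
    refine (map_sum (QuotientAddGroup.mk' (GEs P hP (11 / 8 - 6 / 3 ^ N))) _ _).trans ?_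
    refine Finset.sum_congr rfl (fun p _ => ?_)
    by_cases hp : (3 : ℤ) ^ N ∣ NI b * Nm (bp (n := n) (t := t) f p) - a
    · rw [if_pos hp, if_pos hp]
      rfl
    · rw [if_neg hp, if_neg hp]
      exact map_zero _
  · intro v u hv hd
    refine SU_pm hv ?_
    have h4 := Nm_congr (CV_cast_dvd (Dvd.intro_left _ rfl) hd : ((3 ^ N : ℕ) : OO n t) ∣ v - u)
    exact_mod_cast h4
  · intro v h hv hh
    refine SU_pm hv ?_
    rw [Nm_mul]
    have e : Nm v - Nm h * Nm v = -((Nm h - 1) * Nm v) := by ring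
    rw [e]
    exact (dvd_neg).2 (Dvd.dvd.mul_right hh.2.2 _)
  · intro v u hv hvf hd
    have hv3 : Cop v 3 := SU_cop (by omega) ha hv
    have hd3 : ((3 : ℕ) : OO n t) ∣ v - u :=
      CV_cast_dvd (Dvd.dvd.mul_left (dvd_pow_self 3 (by omega)) _) hd
    have hu3 : Cop u 3 := cop_congr hd3 hv3
    rw [w_cast3] at hd3
    have hz : zt P v = zt P u := w_zt_congr t0 hP hv3 hu3 hd3
    have hg : gB f N m b v = gB f N m b u := (g3 v u hd).2
    refine (GEs_eq hP).2 ?_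
    have e : χ b * (zt P v ^ (k - 1) * ((toO v - zt P v) * gB f N m b v)) -
        χ b * (zt P u ^ (k - 1) * ((toO u - zt P u) * gB f N m b u)) =
        χ b * (zt P v ^ (k - 1) * (toO (v - u) * gB f N m b v)) := by
      rw [← hz, ← hg, toO_sub]
      ring
    rw [e]
    refine DL.GE.mono (DL.GE.mul_left h3 hχb (DL.GE.mul_left h3 (((w_zt t0 hP hv3).2.2.1.1).pow _)
      (DL.GE.mul_right h3 (SU_pow hP hd) (g1 v hvf).2))) (hq1.trans hq2)
  · intro v hv hvf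
    have h4 := SU_coset d2 act sur tra t0 pnt cht gb (k := k) hP hm hbF hχ hN hff hT
      (SU_cop (by omega) ha hv) hvf
    exact (map_sum (QuotientAddGroup.mk' (GEs P hP (11 / 8 - 6 / 3 ^ N))) _ _).symm.trans
      ((GEs_zero hP).2 h4)

end Pool.Agent.DM.GC
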