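import Pool.Agent.Lib.DM.GC.Spec

set_option autoImplicit false

/-!
# Theorem DM, part GC, module TrW: the trace lemma for the sums of `Fou`
-/

open scoped Pointwise

noncomputable section

namespace Pool.Agent.DM.GC

open Pool.Agent.MuZ Pool.Agent.FW Pool.Agent.DN Pool.Agent.DM
open Pool.Agent.DI (io ofC io_inj exists_io io_ofC ofC_io VP MP UP TP ex)
open Pool.Agent.DT (kap cbr)
open Pool.Agent.DM.G (CN)
open Pool.Agent.DM.GL (vP GE pl Cls IsR Hq Un Cn od)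

private theorem TrW_pw {η : Om} {M : ℕ} (hη : η ^ M = 1) {a b : ℕ} (h : (M : ℤ) ∣ (a : ℤ) - b) :
    η ^ a = η ^ b := by
  have h1 : a ≡ b [MOD M] := by
    rw [← Int.natCast_modEq_iff]
    exact (Int.modEq_iff_dvd.2 h).symm
  rw [← pow_mod_orderOf η a, ← pow_mod_orderOf η b]
  have h3 : orderOf η ∣ M := orderOf_dvd_of_pow_eq_one hη
  have h4 : a ≡ b [MOD orderOf η] := h1.of_dvd h3
  rw [h4]

theorem tTrW : S_TrW := by
  intro hIn hAct hSur hTrZ hV0 hOd n t _ P hP f' N e ζ i δ Y hf' hN hζ hδ hper hpar hact hz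
  have hPp := hP.1.1
  have hpl := pl hP
  have hNp : (0 : ℕ) < 3 ^ N := by positivity
  have hζ1 := hζ.pow_eq_one
  have hζ0 : ζ ≠ 0 := hζ.ne_zero hNp.ne'
  have hroot : ∀ (h : OO n t) (τ : Gal(Om/ℚ)), Cls P f' N h τ → ∀ ζ : Om, ζ ^ 3 ^ N = 1 →
      τ ζ = ζ ^ (Nm h).toNat := fun h τ hc => (hAct n t P hP f' N h τ hf' hN hc).1
  have hex : ∀ a : ℕ, ∃ τ : Gal(Om/ℚ), a ∈ od N → ∃ h : OO n t, Cls P f' N h τ ∧
      (3 : ℤ) ^ N ∣ Nm h - a := by
    intro a
    by_cases ha : a ∈ od N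
    · obtain ⟨h, hh1, hh2, hh3, -⟩ := hV0 n t f' N a hf'.pos hf'.cop hN ((hOd N hN).2.1 a ha)
      obtain ⟨τ, hτ⟩ := hSur n t P hP f' N hf' hN h hh1 hh3
      exact ⟨τ, fun _ => ⟨h, hτ, hh2⟩⟩
    · exact ⟨1, fun h => absurd h ha⟩
  choose s hs using hex
  have hse : ((-1 : Om) ^ e) * (-1) ^ e = 1 := by
    rw [← mul_pow]
    norm_num
  have hσs : ∀ σ : Gal(Om/ℚ), σ ((-1 : Om) ^ e) = (-1) ^ e := by
    intro σ
    rw [map_pow, map_neg, map_one]
  have hσδ : ∀ σ : Gal(Om/ℚ), σ δ = δ := by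
    intro σ
    rcases hδ with h | h
    · rw [h, map_zero]
    · rw [h, map_add, map_one, hσs]
  have hδe : (-1) ^ e * δ = δ := by
    rcases hδ with h | h
    · rw [h, mul_zero]
    · rw [h]
      linear_combination hse
  have hodd : ∀ a ∈ od N, s a ζ = ζ ^ a := by
    intro a ha
    obtain ⟨h, hc, hd⟩ := hs a ha
    rw [hroot h _ hc ζ hζ1]
    refine TrW_pw hζ1 ?_
    rw [Int.toNat_of_nonneg (Nm_nonneg h)]
    push_cast
    exact hd
  obtain ⟨z, hzd⟩ : ∃ z, z = (ζ ^ i + (-1) ^ e * ζ ^ (-i) - δ) * Y 1 / 3 := ⟨_, rfl⟩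
  rw [← hzd] at hz
  have hs1 : ∀ a ∈ od N, s a z = (ζ ^ (i * a) + (-1) ^ e * ζ ^ (-(i * a)) - δ) * Y a / 3 := by
    intro a ha
    obtain ⟨h, hc, hd⟩ := hs a ha
    have e1 : ∀ j : ℤ, s a (ζ ^ j) = ζ ^ (j * a) := by
      intro j
      rw [map_zpow₀, hodd a ha, ← zpow_natCast, ← zpow_mul]
      congr 1
      ring
    have e2 : s a (Y 1) = Y a := by
      rw [hact 1 h (s a) (by norm_num) hc]
      apply hper
      rwa [mul_one]
    rw [hzd, map_div₀, map_mul, map_sub, map_add, map_mul, e1, e1, e2, hσs, hσδ, map_ofNat, neg_mul]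
  have hT := hTrZ P hP N ζ z s hN hζ
    (fun a ha => by
      obtain ⟨h, hc, -⟩ := hs a ha
      exact ⟨hc.ine, hodd a ha⟩)
    (fun τ hτ hτζ => by
      obtain ⟨h, hc⟩ := ((hIn n t P hP).2 f' N hf' hN).1 τ hτ
      have hr := hroot h τ hc
      have hNh : (((Nm h).toNat : ℕ) : ℤ) = Nm h := Int.toNat_of_nonneg (Nm_nonneg h)
      have hr1 := hr _ hζ1
      rcases hτζ with h1 | h1
      · have hpm : (3 : ℤ) ^ N ∣ Nm h - 1 := by
          have h3 : ζ ^ ((Nm h - 1 : ℤ)) = 1 := by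
            rw [zpow_sub_one₀ hζ0, ← hNh, zpow_natCast, ← hr1, h1, mul_inv_cancel₀ hζ0]
          have h5 := (hζ.zpow_eq_one_iff_dvd _).1 h3
          push_cast at h5
          exact h5
        have e2 : τ (Y 1) = Y 1 := by
          rw [hact 1 h τ (by norm_num) hc]
          apply hper
          rwa [mul_one]
        rw [hzd, map_div₀, map_mul, map_sub, map_add, map_mul, map_zpow₀, map_zpow₀, h1, e2, hσs, hσδ, map_ofNat]
      · have hpm : (3 : ℤ) ^ N ∣ Nm h + 1 := by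
          have h3 : ζ ^ ((Nm h + 1 : ℤ)) = 1 := by
            rw [zpow_add_one₀ hζ0, ← hNh, zpow_natCast, ← hr1, h1, inv_mul_cancel₀ hζ0]
          have h5 := (hζ.zpow_eq_one_iff_dvd _).1 h3
          push_cast at h5
          exact h5
        have e2 : τ (Y 1) = (-1) ^ e * Y 1 := by
          rw [hact 1 h τ (by norm_num) hc, ← hpar]
          apply hper
          rwa [mul_one, sub_neg_eq_add]
        rw [hzd, map_div₀, map_mul, map_sub, map_add, map_mul, map_zpow₀, map_zpow₀, h1, e2, hσs, hσδ, map_ofNat,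
          inv_zpow', inv_zpow', neg_neg]
        linear_combination (ζ ^ i * Y 1 / 3) * hse - (Y 1 / 3) * hδe)
    hz
  have hv3 : DL.vl P 3 ((3 : Om) ^ N) = N := by
    have h2 := DL.vl_two_pow hpl N
    rwa [Nat.cast_ofNat] at h2
  have h3 : GE P 1 (3 : Om) := by
    refine (DL.GE.two_iff hpl).2 ⟨1, DI.VP.one, ?_⟩
    rw [Nat.cast_ofNat, mul_one]
  have hfin : GE P 1 (3 * ((∑ a ∈ od N, s a z) / 3 ^ N)) := by
    have h4 := h3.mul hpl (hT.div hpl (y := (3 : Om) ^ N) (pow_ne_zero _ (by norm_num)))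
    rw [hv3, sub_self, add_zero] at h4
    exact h4
  have e3 : (3 ^ N : Om)⁻¹ * ∑ a ∈ od N, (ζ ^ (i * a) + (-1) ^ e * ζ ^ (-(i * a)) - δ) * Y a =
      3 * ((∑ a ∈ od N, s a z) / 3 ^ N) := by
    rw [Finset.sum_congr rfl hs1, ← Finset.sum_div]
    have h5 : (3 : Om) ≠ 0 := by norm_num
    field_simp
  rw [e3]
  exact hfin

end Pool.Agent.DM.GC
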