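import Pool.Agent.Lib.DM.GC.Spec

set_option autoImplicit false

/-!
# Theorem DM, part GC, module U1: the number `W(1)`
-/

open scoped Pointwise

noncomputable section

namespace Pool.Agent.DM.GC

open Pool.Agent.MuZ Pool.Agent.FW Pool.Agent.DN Pool.Agent.DM
open Pool.Agent.DI (io ofC io_inj exists_io io_ofC ofC_io VP MP UP TP ex)
open Pool.Agent.DT (kap cbr)
open Pool.Agent.DM.G (CN)
open Pool.Agent.DM.GL (vP GE pl Cls IsR Hq Un Cn od)

variable {n t : ℕ}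

private theorem U1_sub (f N : ℕ) (R : Finset (Ideal (OO n t))) (a : ℤ)
    (φ ψ θ : Ideal (OO n t) → OO n t → Om) (h : ∀ b v, θ b v = φ b v - ψ b v) :
    SI f N R a θ = SI f N R a φ - SI f N R a ψ := by
  unfold SI
  rw [← Finset.sum_sub_distrib]
  refine Finset.sum_congr rfl fun b _ => ?_
  rw [← Finset.sum_sub_distrib]
  refine Finset.sum_congr rfl fun p _ => ?_
  by_cases hc : (3 : ℤ) ^ N ∣ NI b * Nm (bp (n := n) (t := t) f p) - a
  · rw [if_pos hc, if_pos hc, if_pos hc, h]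
  · rw [if_neg hc, if_neg hc, if_neg hc, sub_zero]

theorem tU1 : S_U1 := by
  intro hL hZt hRS hSU n t _ P f N k e m R χ hy
  have hP := hy.ab
  have hPp := hP.1.1
  have hpl := pl hP
  have hN3 := hy.hN
  have hk1 : 1 ≤ k := by
    rcases hy.hk with h | h | h <;> omega
  obtain ⟨T, hT, D, hD, hd⟩ := hy.ex
  obtain ⟨C, th, hC, hth, heq, hS⟩ := hL n t f e m χ P hy.fm hy.chi hP N T D hN3 hT
    (fun c hc => ⟨(hD.mem c hc).1, (hD.mem c hc).2.1⟩) hd
  refine ⟨C, th, hC, hth, heq, ?_⟩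
  have hA := hRS n t P hP f N k e m R χ T D hy.fm hy.fr hy.rc hy.chi hy.ty (by omega) hT hD
  have hB1 := hSU n t P hP f N k m R χ 1 hy.fm hy.fr hy.chi hN3 (by norm_num)
  have hB2 := hSU n t P hP f N k m R χ (-1) hy.fm hy.fr hy.chi hN3 (by norm_num)
  have hw8v : DL.vl P 3 w8 = 1 / 8 := (hZt.2.2.1 P hP).1
  have hGk : GE P (k / 8) (w8 ^ k) := by
    right
    rw [DL.vl_pow hpl hZt.2.1 k, hw8v]
    exact le_of_eq (by ring)
  have hs1 : VP P ((-1 : Om) ^ e) := (DI.VP.neg DI.VP.one).pow e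
  have hU : ∀ a : ℤ, UU P f N k m R χ a = w8 ^ k *
      (SI f N R a (fun b v => χ b * (zt P v ^ (k - 1) * (toO v * gB f N m b v))) -
        SI f N R a (fun b v => χ b * (zt P v ^ (k - 1) * ((toO v - zt P v) * gB f N m b v)))) := by
    intro a
    unfold UU
    congr 1
    refine U1_sub f N R a _ _ _ fun b v => ?_
    have e1 : zt P v ^ k = zt P v ^ (k - 1) * zt P v := by
      rw [← pow_succ]
      congr 1
      omega
    rw [e1]
    ring
  have e0 : WW P f N k e m R χ 1 = UU P f N k m R χ 1 + (-1) ^ e * UU P f N k m R χ (-1) := rfl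
  rw [e0, hU, hU]
  set A1 := SI f N R 1 (fun b v => χ b * (zt P v ^ (k - 1) * (toO v * gB f N m b v)))
  set A2 := SI f N R (-1) (fun b v => χ b * (zt P v ^ (k - 1) * (toO v * gB f N m b v)))
  set B1 := SI f N R 1 (fun b v => χ b * (zt P v ^ (k - 1) * ((toO v - zt P v) * gB f N m b v)))
  set B2 := SI f N R (-1) (fun b v => χ b * (zt P v ^ (k - 1) * ((toO v - zt P v) * gB f N m b v)))
  set S := ∑ c ∈ D, χ c * oN c ^ e * (rO (⊤ : Ideal (OO n t)) c *
    ∑ h ∈ T, toO h * gO m c (toC h / (f * 3 ^ N : ℕ)))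
  have e1 : w8 ^ k * (A1 - B1) + (-1) ^ e * (w8 ^ k * (A2 - B2)) - w8 ^ k * (C * th) =
      w8 ^ k * ((S - C * th) - (S - (A1 + (-1) ^ e * A2)) - (B1 + (-1) ^ e * B2)) := by ring
  rw [e1]
  have hx : (0 : ℚ) < 1 / 3 ^ N := by positivity
  have hN : (3 : ℚ) ≤ N := by exact_mod_cast hN3
  have h1 : GE P (11 / 8 - 6 / 3 ^ N) (S - C * th) := hS.mono (by
    have e4 : (4 : ℚ) / 3 ^ N = 4 * (1 / 3 ^ N) := by ring
    have e6 : (6 : ℚ) / 3 ^ N = 6 * (1 / 3 ^ N) := by ring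
    rw [e4, e6]
    linarith)
  have h2 : GE P (11 / 8 - 6 / 3 ^ N) (S - (A1 + (-1) ^ e * A2)) := hA.mono (by
    have e6 : (6 : ℚ) / 3 ^ N = 6 * (1 / 3 ^ N) := by ring
    rw [e6]
    linarith)
  have h3 : GE P (11 / 8 - 6 / 3 ^ N) (B1 + (-1) ^ e * B2) := hB1.add hpl (hB2.mul_left hpl hs1)
  refine (hGk.mul hpl ((h1.sub hpl h2).sub hpl h3)).mono (le_of_eq ?_)
  ring

end Pool.Agent.DM.GC
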