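import Pool.Agent.Lib.DM.GC.Spec

/-!
# Theorem DM, part GC, module UAct: the action of inertia on the numbers `U(a)` (helper9; edit of `DN/G/UAct.lean`)
-/

set_option autoImplicit false

open scoped Pointwise

noncomputable section

namespace Pool.Agent.DM.GC

open Pool.Agent.MuZ Pool.Agent.FW Pool.Agent.DN Pool.Agent.DM
open Pool.Agent.DI (io ofC io_inj exists_io io_ofC ofC_io VP MP UP TP ex)
open Pool.Agent.DT (kap cbr)
open Pool.Agent.DM.G (CN)
open Pool.Agent.DM.GL (vP GE pl Cls IsR Hq Un Cn od)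

private theorem UAct_dvd {N : ℕ} {x a a' : ℤ} (h : (3 : ℤ) ^ N ∣ a - a') :
    (3 : ℤ) ^ N ∣ x - a ↔ (3 : ℤ) ^ N ∣ x - a' := by
  constructor
  · intro hx
    have e : x - a' = (x - a) + (a - a') := by ring
    rw [e]; exact dvd_add hx h
  · intro hx
    have e : x - a = (x - a') - (a - a') := by ring
    rw [e]; exact dvd_sub hx h

private theorem UAct_dvdl {N : ℕ} {x y a : ℤ} (h : (3 : ℤ) ^ N ∣ x - y) :
    (3 : ℤ) ^ N ∣ x - a ↔ (3 : ℤ) ^ N ∣ y - a := by
  constructor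
  · intro hx
    have e : y - a = (x - a) - (x - y) := by ring
    rw [e]; exact dvd_sub hx h
  · intro hx
    have e : x - a = (y - a) + (x - y) := by ring
    rw [e]; exact dvd_add hx h

/-- Multiplication by a number prime to `3`. -/
private theorem UAct_mul {N : ℕ} {c x a : ℤ} (hc : ¬ (3 : ℤ) ∣ c) :
    (3 : ℤ) ^ N ∣ x - a ↔ (3 : ℤ) ^ N ∣ c * x - c * a := by
  have h2 : IsCoprime ((3 : ℤ) ^ N) c :=
    IsCoprime.pow_left ((Prime.coprime_iff_not_dvd Int.prime_three).2 hc)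
  rw [← mul_sub]
  exact ⟨fun h => Dvd.dvd.mul_left h c, fun h => h2.dvd_of_dvd_mul_left h⟩

private theorem UAct_odd {N : ℕ} (hN : 1 ≤ N) {x y a : ℤ} (ha : ¬ (3 : ℤ) ∣ a)
    (h : (3 : ℤ) ^ N ∣ x * y - a) : ¬ (3 : ℤ) ∣ y := by
  have h2 : (3 : ℤ) ∣ 3 ^ N := dvd_pow_self 3 (by omega)
  intro hy
  have hxy : (3 : ℤ) ∣ x * y := Dvd.dvd.mul_left hy x
  exact ha ((dvd_sub_right hxy).1 (h2.trans h))

variable {n t : ℕ}

/-- The class function. -/
private def UAct_F (P : Ideal ZZ) (f N k : ℕ) (m : Ideal (OO n t)) (χ : Ideal (OO n t) → Om)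
    (b : Ideal (OO n t)) (a : ℤ) (u : OO n t) : Om :=
  if (3 : ℤ) ^ N ∣ NI b * Nm u - a then χ b * (zt P u ^ k * gB f N m b u) else 0

private theorem UAct_UU (P : Ideal ZZ) (f N k : ℕ) (m : Ideal (OO n t)) (R : Finset (Ideal (OO n t)))
    (χ : Ideal (OO n t) → Om) (a : ℤ) :
    UU P f N k m R χ a = w8 ^ k * ∑ b ∈ R, ∑ p ∈ Bx N, UAct_F P f N k m χ b a (bp f p) := rfl

private theorem UAct_lam [SqN n t] (b : Ideal (OO n t)) (v : OO n t) : toC v ∈ Lam b := by
  intro u _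
  exact ⟨u * v, (toC_mul u v).symm⟩

private theorem UAct_cop [Ine3 n t] {v : OO n t} (h : ¬ (3 : ℤ) ∣ Nm v) : Cop v 3 := by
  rw [GL.cop3_iff v, ← GL.three_Nm]
  exact h

theorem tUAct : S_UAct := by
  intro hAct hZt hTc hChT hGb hBt n t _ P hP f N k m R χ hm hR hχ hN hk
  have t0 : S_T0 := hZt.1
  refine ⟨?_, ?_⟩
  · intro a a' h
    rw [UAct_UU, UAct_UU]
    congr 1
    refine Finset.sum_congr rfl fun b _ => Finset.sum_congr rfl fun p _ => ?_
    unfold UAct_F
    by_cases h1 : (3 : ℤ) ^ N ∣ NI b * Nm (bp (n := n) (t := t) f p) - a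
    · rw [if_pos h1, if_pos ((UAct_dvd h).1 h1)]
    · rw [if_neg h1, if_neg (fun h2 => h1 ((UAct_dvd h).2 h2))]
  · intro a h τ ha3 hτ
    have hh3 : ¬ (3 : ℤ) ∣ Nm h := by
      intro h1
      exact ((GL.cop3_iff h).1 hτ.cop) ((GL.three_Nm h).1 h1)
    have hha3 : ¬ (3 : ℤ) ∣ Nm h * a := by
      intro h1
      rcases Int.prime_three.dvd_or_dvd h1 with h1 | h1
      · exact hh3 h1
      · exact ha3 h1
    have hf0 := hm.pos
    obtain ⟨h20, hm30, hm3, hmf, hmo, hmc, hm0, hmc3, hmcf⟩ := w_fm hm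
    have hff : Fok (f * NI m) :=
      ⟨Nat.mul_pos hm.pos hm0, Dvd.dvd.mul_right hm.dvd _, Nat.Coprime.mul_left hm.cop hmc3⟩
    have hh1 : (f : OO n t) ∣ h - 1 := CV_cast_dvd (Dvd.intro _ rfl) hτ.one
    have hM0 : ((f * 3 ^ N : ℕ) : ℂ) ≠ 0 := by
      have : 0 < f * 3 ^ N := by positivity
      exact_mod_cast this.ne'
    -- the elements `v`
    have hvc : ∀ (b : Ideal (OO n t)) (v : OO n t) (c : ℤ), (f : OO n t) ∣ v - 1 → ¬ (3 : ℤ) ∣ c →
        (3 : ℤ) ^ N ∣ NI b * Nm v - c → Cop v 3 ∧ Cop v (3 * f) := by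
      intro b v c hv hc hp
      have h1 : Cop v 3 := UAct_cop (UAct_odd hN hc hp)
      exact ⟨h1, CV_cop_mul.2 ⟨h1, CV_cop_of_dvd hv⟩⟩
    have hbp : ∀ p ∈ Bx N, (f : OO n t) ∣ bp f p - 1 := ((hBt n t f N hm.toFok).1).mem
    have hcl := (hChT n t P hP f χ hm.toFok hχ).1
    -- the terms
    have hterm : ∀ b ∈ R, ∀ p ∈ Bx N,
        zt P h ^ k * τ (UAct_F P f N k m χ b a (bp f p)) =
          UAct_F P f N k m χ b (Nm h * a) (h * bp f p) := by
      intro b hb p hp
      have hbF := hR b hb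
      have hbG := (w_fb hm hbF).1
      have hpm : (3 : ℤ) ^ N ∣ NI b * Nm (bp (n := n) (t := t) f p) - a ↔
          (3 : ℤ) ^ N ∣ NI b * Nm (h * bp f p) - Nm h * a := by
        rw [UAct_mul (N := N) (x := (NI b : ℤ) * Nm (bp (n := n) (t := t) f p)) (a := a) hh3, Nm_mul]
        have e : Nm h * ((NI b : ℤ) * Nm (bp (n := n) (t := t) f p)) =
            (NI b : ℤ) * (Nm h * Nm (bp (n := n) (t := t) f p)) := by ring
        rw [e]
      unfold UAct_F
      by_cases h1 : (3 : ℤ) ^ N ∣ NI b * Nm (bp (n := n) (t := t) f p) - a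
      · rw [if_pos h1, if_pos (hpm.1 h1)]
        obtain ⟨hv3, hv3f⟩ := hvc b _ a (hbp p hp) ha3 h1
        have e1 : τ (zt P (bp (n := n) (t := t) f p)) = zt P (bp f p) :=
          (w_zt t0 hP hv3).2.2.2 τ hτ.ine
        have e2 : τ (χ b) = χ b := (hcl b).2 τ hτ.ine
        have hact := (hAct n t P hP (f * NI m) N h τ hff hN hτ).2
        have e3 : τ (rO (⊤ : Ideal (OO n t)) b) = rO ⊤ b :=
          (hact ⊤ (w_fb hm (w_fb_top f)).1).2.1 b hbG
        have hgb := (hGb n t P hP f N m b hm hN hbF).2.1 _ hv3f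
        have e4 : τ (gO m b (toC (bp (n := n) (t := t) f p) / (f * 3 ^ N : ℕ))) =
            gO m b (toC (h * bp f p) / (f * 3 ^ N : ℕ)) := by
          rw [((hact b hbG).2.2.2.2 m hm.ne hm30 (Dvd.intro_left _ rfl) _ ?_ hgb).1, toC_mul,
            mul_div_assoc]
          have e5 : ((f * NI m * 3 ^ N : ℕ) : ℂ) *
              (toC (bp (n := n) (t := t) f p) / (f * 3 ^ N : ℕ)) =
                toC (((NI m : ℕ) : OO n t) * bp f p) := by
            rw [toC_mul, toC_nat, ← mul_div_assoc, div_eq_iff hM0]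
            push_cast
            ring
          rw [e5]
          exact UAct_lam b _
        unfold gB
        rw [map_mul, map_mul, map_mul, map_pow, e1, e2, e3, e4, w_zt_mul t0 hP hτ.cop hv3]
        ring
      · rw [if_neg h1, if_neg (fun h2 => h1 (hpm.2 h2)), map_zero, mul_zero]
    -- periodicity and the change of the system
    have hre : ∀ b ∈ R, ∑ p ∈ Bx N, UAct_F P f N k m χ b (Nm h * a) (h * bp f p) =
        ∑ p ∈ Bx N, UAct_F P f N k m χ b (Nm h * a) (bp f p) := by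
      intro b hb
      have hbF := hR b hb
      have hcop3 : Cop h (3 ^ N) := by
        have h1 := hτ.cop
        unfold Cop at h1 ⊢
        push_cast at h1 ⊢
        exact IsCoprime.pow_right h1
      have hcop : Cop h (f * 3 ^ N) := CV_cop_mul.2 ⟨CV_cop_of_dvd hh1, hcop3⟩
      obtain ⟨h', -, hh'⟩ := cop_inv hcop
      have hh'1 : (f : OO n t) ∣ h' - 1 := by
        have e : h' - 1 = (h * h' - 1) - (h - 1) * h' := by ring
        rw [e]
        exact dvd_sub (CV_cast_dvd (Dvd.intro _ rfl) hh') (Dvd.dvd.mul_right hh1 _)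
      have hS := (hBt n t f N hm.toFok).1
      have hS' := hS.mul hcop hh' (fun v hv => by
          have e : h * v - 1 = h * (v - 1) + (h - 1) := by ring
          rw [e]
          exact dvd_add (Dvd.dvd.mul_left hv _) hh1) (fun v hv => by
          have e : h' * v - 1 = h' * (v - 1) + (h' - 1) := by ring
          rw [e]
          exact dvd_add (Dvd.dvd.mul_left hv _) hh'1)
      refine RpI.sum hS' hS (UAct_F P f N k m χ b (Nm h * a)) ?_
      intro v u hv hu hvu
      have h2N : (3 : ℤ) ^ N ∣ (NI b : ℤ) * Nm v - NI b * Nm u := by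
        rw [← mul_sub]
        refine Dvd.dvd.mul_left ?_ _
        have h1 := Nm_congr (CV_cast_dvd (Dvd.intro_left _ rfl : 3 ^ N ∣ f * 3 ^ N) hvu)
        push_cast at h1
        exact h1
      unfold UAct_F
      by_cases h1 : (3 : ℤ) ^ N ∣ NI b * Nm u - Nm h * a
      · have h3 : (3 : ℤ) ^ N ∣ NI b * Nm v - Nm h * a := (UAct_dvdl h2N).2 h1
        rw [if_pos h1, if_pos h3]
        obtain ⟨hv3, hv3f⟩ := hvc b _ _ hv hha3 h3
        obtain ⟨hu3, hu3f⟩ := hvc b _ _ hu hha3 h1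
        have h4 : (3 : OO n t) ∣ v - u :=
          w_dvd3 (Dvd.dvd.mul_left (dvd_pow_self 3 (by omega)) _) hvu
        rw [w_zt_congr t0 hP hv3 hu3 h4, ((hGb n t P hP f N m b hm hN hbF).2.2.1 v u hvu).2]
      · rw [if_neg h1, if_neg (fun h2 => h1 ((UAct_dvdl h2N).1 h2))]
    rw [UAct_UU, UAct_UU, map_mul, map_pow, hTc n t P hP (f * NI m) N h τ hff hN hτ, map_sum,
      mul_pow, mul_comm (zt P h ^ k), mul_assoc]
    congr 1
    rw [Finset.mul_sum]
    refine Finset.sum_congr rfl fun b hb => ?_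
    rw [map_sum, Finset.mul_sum, ← hre b hb]
    exact Finset.sum_congr rfl fun p hp => hterm b hb p hp

end Pool.Agent.DM.GC
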