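import Pool.Agent.Lib.DM.GC.Spec

/-!
# Theorem DM, module V0: an element `= 1` modulo `f` with given norm modulo `3^N`
-/

set_option autoImplicit false

open scoped Pointwise

noncomputable section

namespace Pool.Agent.DM.GC

open Pool.Agent.MuZ Pool.Agent.FW Pool.Agent.DN Pool.Agent.DM
open Pool.Agent.DI (io ofC io_inj exists_io io_ofC ofC_io VP MP UP TP ex)
open Pool.Agent.DT (kap cbr)
open Pool.Agent.DM.G (CN)
open Pool.Agent.DM.GL (vP GE pl Cls IsR Hq Un Cn od)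

variable {n t : ℕ}

/-- An integer with given square modulo `3^N`. -/
private theorem V0_sq {f N : ℕ} (hf : f.Coprime 3) (hN : 1 ≤ N) {a : ℤ} (ha : (3 : ℤ) ∣ a - 1) :
    ∃ v : ℤ, (f : ℤ) ∣ v - 1 ∧ (3 : ℤ) ^ N ∣ v ^ 2 - a ∧ (3 : ℤ) ∣ v - 1 := by
  obtain ⟨m, rfl⟩ : ∃ m, N = m + 1 := ⟨N - 1, by omega⟩
  obtain ⟨j, hj⟩ : ∃ j : ℕ, 3 ^ m = 2 * j + 1 := by
    have : Odd (3 ^ m) := Odd.pow (by decide)
    exact this
  have h1 : (3 : ℤ) ^ (m + 1) ∣ a ^ 3 ^ m - 1 := by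
    have h3 := dvd_sub_pow_of_dvd_sub (p := 3) (a := a) (b := 1) (by exact_mod_cast ha) m
    rw [one_pow] at h3
    exact_mod_cast h3
  have hw : (3 : ℤ) ^ (m + 1) ∣ (a ^ (j + 1)) ^ 2 - a := by
    have e : (a ^ (j + 1)) ^ 2 - a = a * (a ^ 3 ^ m - 1) := by
      rw [hj]
      ring
    rw [e]
    exact dvd_mul_of_dvd_right h1 _
  have hw1 : (3 : ℤ) ∣ a ^ (j + 1) - 1 := by
    have h3 := sub_dvd_pow_sub_pow a 1 (j + 1)
    rw [one_pow] at h3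
    exact ha.trans h3
  set w : ℤ := a ^ (j + 1) with hwd
  have hc : IsCoprime (f : ℤ) ((3 : ℤ) ^ (m + 1)) := by
    have : IsCoprime (f : ℤ) (3 : ℤ) := by exact_mod_cast Nat.isCoprime_iff_coprime.2 hf
    exact this.pow_right
  obtain ⟨x, y, hxy⟩ := hc
  have hv1 : (f : ℤ) ∣ (x * f + y * 3 ^ (m + 1) * 1 + (w - 1) * (x * f)) - 1 :=
    ⟨x * (w - 1), by linear_combination hxy⟩
  have hv2 : (3 : ℤ) ^ (m + 1) ∣ (x * f + y * 3 ^ (m + 1) * 1 + (w - 1) * (x * f)) - w :=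
    ⟨y - y * w, by linear_combination w * hxy⟩
  have h3 : (3 : ℤ) ∣ 3 ^ (m + 1) := dvd_pow_self 3 (by omega)
  refine ⟨_, hv1, ?_, ?_⟩
  · obtain ⟨z, hz⟩ := hv2
    obtain ⟨z', hz'⟩ := hw
    refine ⟨z * (2 * w + 3 ^ (m + 1) * z) + z', ?_⟩
    have e : x * f + y * 3 ^ (m + 1) * 1 + (w - 1) * (x * f) = w + 3 ^ (m + 1) * z := by linear_combination hz
    rw [e]
    linear_combination hz'
  · have h5 := dvd_add (h3.trans hv2) hw1
    rwa [sub_add_sub_cancel] at h5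

private theorem V0_int {f N : ℕ} (hf : f.Coprime 3) (hN : 1 ≤ N) {a : ℤ} (ha : (3 : ℤ) ∣ a - 1) :
    ∃ v : OO n t, (f : OO n t) ∣ v - 1 ∧ (3 : ℤ) ^ N ∣ Nm v - a ∧ (3 : OO n t) ∣ v - 1 := by
  obtain ⟨v, hv1, hv2, hv3⟩ := V0_sq hf hN ha
  have e : Nm (⟨v, 0⟩ : OO n t) = v ^ 2 := by
    unfold Nm
    ring
  refine ⟨⟨v, 0⟩, ?_, ?_, ?_⟩
  · rw [nat_dvd_iff, QuadraticAlgebra.re_sub, QuadraticAlgebra.im_sub, re_one, im_one]
    exact ⟨hv1, by simp⟩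
  · rw [e]
    exact hv2
  · have h3 : ((3 : ℕ) : OO n t) ∣ (⟨v, 0⟩ : OO n t) - 1 := by
      rw [nat_dvd_iff, QuadraticAlgebra.re_sub, QuadraticAlgebra.im_sub, re_one, im_one]
      exact ⟨by exact_mod_cast hv3, by simp⟩
    exact_mod_cast h3

private theorem V0_cop {a : ℤ} (ha : ¬ (3 : ℤ) ∣ a) {N : ℕ} (hN : 1 ≤ N) {v : OO n t} (h : (3 : ℤ) ^ N ∣ Nm v - a) :
    Cop v 3 := by
  have h3 : (3 : ℤ) ∣ Nm v - a := (dvd_pow_self 3 (by omega)).trans h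
  have h4 : ¬ (3 : ℤ) ∣ Nm v := fun h5 => ha (by
    have := dvd_sub h5 h3
    rwa [sub_sub_cancel] at this)
  unfold Cop
  exact ((Int.prime_three.coprime_iff_not_dvd).2 h4).symm

theorem tV0 : S_V0 := by
  intro n t _ f N a hf0 hf hN ha
  have h33 : (3 : ℤ) ∣ 3 ^ N := dvd_pow_self 3 (by omega)
  have hcase : (3 : ℤ) ∣ a - 1 ∨ (3 : ℤ) ∣ a + 1 := by omega
  rcases hcase with h1 | h1
  · obtain ⟨v, hv1, hv2, hv3⟩ := V0_int (n := n) (t := t) hf hN h1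
    exact ⟨v, hv1, hv2, V0_cop ha hN hv2, fun _ => hv3⟩
  · -- the element `g0`
    obtain ⟨j, hj⟩ := GL.D_mod (n := n) (t := t)
    have hg0 : (3 : ℤ) ∣ Nm (⟨2 + t, 1⟩ : OO n t) - 2 := by
      have h4 := GL.four_Nm (⟨2 + t, 1⟩ : OO n t)
      change 4 * Nm (⟨2 + t, 1⟩ : OO n t) = (2 * (2 + (t : ℤ)) + t * 1) ^ 2 + (4 * n - t ^ 2 : ℤ) * 1 ^ 2 at h4
      rw [hj] at h4
      have h5 : (3 : ℤ) ∣ 4 * (Nm (⟨2 + t, 1⟩ : OO n t) - 2) := ⟨3 * t ^ 2 + 8 * t + j + 3, by linear_combination h4⟩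
      omega
    obtain ⟨g1, -, hg1, hg2⟩ := (aO11 n t).2.2.2.2.2 f (3 ^ N) 1 ⟨2 + t, 1⟩ hf0 (Nat.pos_of_ne_zero (pow_ne_zero N (three_ne_zero (α := ℕ)))) (Nat.Coprime.pow_right N hf)
    have hν : (3 : ℤ) ∣ Nm g1 - 2 := by
      have h5 := Nm_congr hg2
      have h6 : (3 : ℤ) ∣ ((3 ^ N : ℕ) : ℤ) := by
        push_cast
        exact h33
      have h7 := dvd_add (h6.trans h5) hg0
      rwa [sub_add_sub_cancel] at h7
    have hcop : IsCoprime (Nm g1) ((3 : ℤ) ^ N) := by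
      refine IsCoprime.pow_right ?_
      exact ((Int.prime_three.coprime_iff_not_dvd).2 (fun h => by omega)).symm
    obtain ⟨ν', y, hy⟩ := hcop
    obtain ⟨c3, hc3⟩ := h33
    have h8 : (3 : ℤ) ∣ a * ν' - 1 := by
      obtain ⟨z, hz⟩ := hν
      obtain ⟨z', hz'⟩ := h1
      have h9 : 2 * ν' + 3 * (z * ν') + 3 * (y * c3) = 1 := by
        rw [hc3] at hy
        linear_combination hy - ν' * hz
      have h10 : (3 : ℤ) ∣ ν' + 1 := by omega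
      obtain ⟨z2, hz2⟩ := h10
      exact ⟨z' * ν' - z2, by linear_combination ν' * hz' - hz2⟩
    obtain ⟨v, hv1, hv2, -⟩ := V0_int (n := n) (t := t) hf hN h8
    have hfin : (3 : ℤ) ^ N ∣ Nm (v * g1) - a := by
      rw [Nm_mul]
      obtain ⟨z, hz⟩ := hv2
      exact ⟨z * Nm g1 - a * y, by linear_combination Nm g1 * hz + a * hy⟩
    refine ⟨v * g1, ?_, hfin, V0_cop ha hN hfin, fun h => by omega⟩
    have e : v * g1 - 1 = v * (g1 - 1) + (v - 1) := by ring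
    rw [e]
    exact dvd_add (dvd_mul_of_dvd_right hg1 _) hv1

end Pool.Agent.DM.GC
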