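import Pool.Agent.Lib.DM.D.AllD
import Pool.Agent.Lib.DM.G.AllZ
import Pool.Agent.Lib.DM.G.RD
import Pool.Agent.Lib.DM.D.Kp
import Pool.Agent.Lib.DM.C.All
import Pool.Agent.Lib.DL.Pol
import Pool.Agent.Lib.DL.Cn
import Pool.Agent.Lib.DL.K0
import Pool.Agent.Lib.DL.K2
import Pool.Agent.Lib.DL.Mono
import Pool.Agent.Lib.DL.Der
import Pool.Agent.Lib.DL.Fix
import Pool.Agent.Lib.DL.Cj
import Pool.Agent.Lib.DL.LDr
import Pool.Agent.Lib.DL.Kum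
import Pool.Agent.Lib.DL.Dup
import Pool.Agent.Lib.DL.Rt
import Pool.Agent.Lib.DL.TrH
import Pool.Agent.Lib.DM.GL.Act
import Pool.Agent.Lib.DM.GL.Rep
import Pool.Agent.Lib.DM.GL.Pi
import Pool.Agent.Lib.DM.GL.Sur
import Pool.Agent.Lib.DM.GL.Hj
import Pool.Agent.Lib.DM.GL.Sum
import Pool.Agent.Lib.DM.GL.Gen
import Pool.Agent.Lib.DM.GL.FixH
import Pool.Agent.Lib.DM.GL.Zn
import Pool.Agent.Lib.DM.GL.Tra
import Pool.Agent.Lib.DM.GL.Zt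
import Pool.Agent.Lib.DM.GL.Tc
import Pool.Agent.Lib.DM.GL.gT1
import Pool.Agent.Lib.DM.GL.gT2
import Pool.Agent.Lib.DM.GL.Pz
import Pool.Agent.Lib.DM.GL.TrZ
import Pool.Agent.Lib.DM.GL.Rou
import Pool.Agent.Lib.DM.GL.Odq
import Pool.Agent.Lib.DM.GL.Kud
import Pool.Agent.Lib.DM.GL.Tru
import Pool.Agent.Lib.DM.GL.Iso
import Pool.Agent.Lib.DM.GL.Trh
import Pool.Agent.Lib.DM.GL.Tht
import Pool.Agent.Lib.DM.GL.ZtD
import Pool.Agent.Lib.DM.GL.Pnt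
import Pool.Agent.Lib.DM.GL.Mnf
import Pool.Agent.Lib.DM.GL.Un4
import Pool.Agent.Lib.DM.GL.Cpt3
import Pool.Agent.Lib.DM.GL.Ga3
import Pool.Agent.Lib.DM.GL.Cu
import Pool.Agent.Lib.DM.GL.SitM
import Pool.Agent.Lib.DM.GL.Res
import Pool.Agent.Lib.DM.GL.LSS
import Pool.Agent.Lib.DM.GC.Bt
import Pool.Agent.Lib.DM.GC.Od
import Pool.Agent.Lib.DM.GC.V0
import Pool.Agent.Lib.DM.GC.ChT
import Pool.Agent.Lib.DM.GC.Gb
import Pool.Agent.Lib.DM.GC.RS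
import Pool.Agent.Lib.DM.GC.Cos
import Pool.Agent.Lib.DM.GC.SU
import Pool.Agent.Lib.DM.GC.U1
import Pool.Agent.Lib.DM.GC.UAct
import Pool.Agent.Lib.DM.GC.Abs
import Pool.Agent.Lib.DM.GC.TrW
import Pool.Agent.Lib.DM.GC.LSm

/-!
# Theorem DM (`p = 3` inert): the local step from `GL.S_In` and `GC.S_Fou` (author helper85)

All the other modules are closed: `GL.pGL`, `GL.pGT`, `GL.pGB` (from `GL.S_In`), `GC.pLS` (from `GL.S_In`, `GC.S_Fou`). `GL.zT0 : S_T0`, `GL.zKp : S_Kp` have no hypotheses.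
-/

set_option autoImplicit false

noncomputable section

namespace Pool.Agent.DM.GL

open Pool.Agent.MuZ Pool.Agent.FW Pool.Agent.DN Pool.Agent.DM

/-- The abstract theory. -/
theorem zDL : DL.Out :=
  DL.asmDL DL.tPol DL.tCn DL.tK0 DL.tK2 DL.tMono DL.tDer DL.tFix DL.tCj DL.tLDr DL.tKum DL.tDup DL.tRt DL.tTrH

theorem zGLIn : GLIn where
  B7 := aB7
  XOm := zXOm
  R1 := zR1
  D1 := zD1
  D2 := zD2
  D8 := DM.zD8
  D10 := zD10
  E1 := DS.zE1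
  E4a := zE4a
  E6 := DS.zE6
  E10 := zE10 DS.zD1

theorem zGLInB : GLInB where
  BC := aBC
  Cv := zCv
  R2 := zR2
  D9 := zD9
  Tam := zTam DS.zD1 zE4a
  GM := DM.G.zGM
  G3 := DM.G.zG3

theorem zT0 : S_T0 := tZt.1

theorem zKp : S_Kp := sKp zXOm zR2 zD1 zD2 zT0

theorem pGL (inn : S_In) : GLOut :=
  asmGL zGLIn zDL inn tAct tRep tPi tSur tHj tSum tGen tFixH tZn tTra

theorem pGT (inn : S_In) : GTOut :=
  asmGT aB7 zKp zDL (pGL inn) tZt tTc tgT1 tgT2 tPz tTrZ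

theorem pGB (inn : S_In) : GBOut :=
  asmGB zGLIn zGLInB zDL (pGL inn) tZt tRou tOdq tKud tTru tIso tTrh tTht tZtD tPnt tMnf tUn4 tCpt3 tGa3 tCu
    tSitM tRes (tLSS DM.G.zGM)

end Pool.Agent.DM.GL

namespace Pool.Agent.DM.GC

open Pool.Agent.MuZ Pool.Agent.FW Pool.Agent.DN Pool.Agent.DM

theorem zRB : C_RB := DM.G.aRB

theorem zRD : C_RD := by
  intro n t _ f N T D hf hN hT hD
  refine DM.G.aRD n t f N T D hf hN hT (fun c hc => hD.mem c hc) (fun b hb => ?_) (fun c hc c' hc' h => ?_)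
  · exact hD.ex b hb.1 hb.2.1
  · exact hD.uni c hc c' hc' h

theorem zTm : S_Tm := aTm GL.zT0

theorem zC4 : S_C4 := aC4 DS.zR1

/-- The local step, from the two last modules. -/
theorem pLS (inn : GL.S_In) (fou : S_Fou) : S_LS ∧ C_ChT :=
  asmC aB7 zR1 zD2 zD9 zC4 zTm (GL.pGL inn) (GL.pGT inn) (GL.pGB inn) zRB zRD tBt tOd tV0 tChT tGb tRS tCos tSU
    tU1 tUAct tAbs fou tTrW tLSm

end Pool.Agent.DM.GC
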