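import Pool.Agent.Lib.DM.GC.Spec
import Pool.Agent.Lib.DM.G.RB
import Pool.Agent.Lib.DM.G.RD

/-!
# `C_RB`, `C_RD` of `DM/GC/Spec.lean` (author helper21)
-/

set_option autoImplicit false

open scoped Pointwise

noncomputable section

namespace Pool.Agent.DM.GC

open Pool.Agent.MuZ Pool.Agent.FW Pool.Agent.DN Pool.Agent.DM
open Pool.Agent.DM.G (CN)

theorem tRB : C_RB := by
  intro n t _ f N R hf hN hR hb I hI
  exact DM.G.aRB n t f N R hf hN hR hb I hI

theorem tRD : C_RD := by
  intro n t _ f N T D hf hN hT hD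
  exact DM.G.aRD n t f N T D hf hN hT (fun c hc => hD.mem c hc) (fun b hb => hD.ex b hb.1 hb.2.1) hD.uni

end Pool.Agent.DM.GC
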