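import Pool.Agent.Lib.DM.GC.Spec

/-!
# Theorem DM, the end of the local step, module RS: reindexing the classes modulo `f 3^N` with norm `± 1`

Author helper62 (after `DN/G/RS.lean`).
-/

set_option autoImplicit false

open scoped Pointwise

noncomputable section

namespace Pool.Agent.DM.GC

open Pool.Agent.MuZ Pool.Agent.FW Pool.Agent.DN Pool.Agent.DM
open Pool.Agent.DI (io ofC io_inj exists_io io_ofC ofC_io VP MP UP TP ex)
open Pool.Agent.DT (kap cbr)
open Pool.Agent.DM.G (CN)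
open Pool.Agent.DM.GL (vP GE pl Cls IsR Hq Un Cn od)

private theorem RS_sum {P : Ideal ZZ} (hP : Ab3 P) (q : ℚ) {ι : Type} (s : Finset ι) (g : ι → Om) :
    (QuotientAddGroup.mk (∑ i ∈ s, g i) : Om ⧸ GEs P hP q) =
      ∑ i ∈ s, (QuotientAddGroup.mk (g i) : Om ⧸ GEs P hP q) :=
  map_sum (QuotientAddGroup.mk' (GEs P hP q)) g s

private theorem RS_three {N : ℕ} (hN : 1 ≤ N) : (3 : ℤ) ∣ 3 ^ N := dvd_pow_self 3 (by omega)

private theorem RS_ndvd {N : ℕ} (hN : 1 ≤ N) {x y : ℤ}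
    (h : (3 : ℤ) ^ N ∣ x * y - 1 ∨ (3 : ℤ) ^ N ∣ x * y + 1) : ¬ (3 : ℤ) ∣ y := by
  intro h2
  have h4 : (3 : ℤ) ∣ x * y := h2.mul_left x
  rcases h with h | h
  · have h5 := (Int.dvd_iff_dvd_of_dvd_sub ((RS_three hN).trans h)).1 h4
    omega
  · have h5 := (Int.dvd_iff_dvd_of_dvd_add ((RS_three hN).trans h)).1 h4
    omega

private theorem RS_oN {n t N : ℕ} (hN : 1 ≤ N) (a : Ideal (OO n t)) :
    ((3 : ℤ) ^ N ∣ (NI a : ℤ) - 1 → oN a = 1) ∧ ((3 : ℤ) ^ N ∣ (NI a : ℤ) + 1 → oN a = -1) := by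
  constructor
  · intro h
    have h1 := (RS_three hN).trans h
    have h2 : NI a % 3 = 1 := by omega
    unfold oN
    rw [if_pos h2]
  · intro h
    have h1 := (RS_three hN).trans h
    have h2 : ¬ NI a % 3 = 1 := by omega
    have h3 : NI a % 3 = 2 := by omega
    unfold oN
    rw [if_neg h2, if_pos h3]

private theorem RS_oNvp {n t : ℕ} {P : Ideal ZZ} [P.IsPrime] (a : Ideal (OO n t)) : VP P (oN a) := by
  unfold oN
  split_ifs
  · exact DI.VP.one
  · have h : VP P ((-1 : ℤ) : Om) := DI.VP.int (-1)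
    rwa [Int.cast_neg, Int.cast_one] at h
  · exact DI.VP.zero

theorem tRS : S_RS := by
  classical
  intro hRB hRD hC hG n t _ P hP f N k e m R χ T D hfm hR hRC hχ hTy hN hT hD
  have hf := hfm.toFok
  have hfpos : 0 < f := hf.pos
  have hMpos : 0 < f * 3 ^ N := by positivity
  have hprime := hP.1.1
  obtain ⟨hVP, hty, hhf, -⟩ := hC n t P hP f χ hf hχ
  replace hty := hty (k - 1) hTy
  have h3f : 3 * f ∣ f * 3 ^ N := by
    obtain ⟨N', rfl⟩ : ∃ N', N = N' + 1 := ⟨N - 1, by omega⟩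
    exact ⟨3 ^ N', by ring⟩
  set G : Ideal (OO n t) → Om := fun b' => χ b' * oN b' ^ e * gB f N m b' 1 with hGdef
  set F : Ideal (OO n t) → Om ⧸ GEs P hP (N : ℚ) := fun b' => QuotientAddGroup.mk (G b') with hFdef
  have hF : ∀ b b' : Ideal (OO n t), CN f N b → CN f N b' → Ray (f * 3 ^ N) b b' → F b = F b' := by
    intro b b' hb hb' hr
    have hr3 : Ray (3 * f) b b' := (aO7 n t (f * 3 ^ N) hMpos).2.2.2.2.2.2.1 (3 * f) b b' h3f hr
    have h1 : χ b = χ b' := hχ.ray b b' hb.1 hb'.1 hb.2.1 hb'.2.1 hr3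
    have h0 : oN b = oN b' := by
      have h3 := aO9 n t (3 * f) (by omega) b b' hb.2.1 hb'.2.1 hr3
      have h4 : (3 : ℤ) ∣ (NI b : ℤ) - NI b' := by
        refine dvd_trans ?_ h3
        push_cast
        exact Dvd.intro _ rfl
      have h5 : NI b % 3 = NI b' % 3 := by omega
      unfold oN
      rw [h5]
    have h2 := (hG n t P hP f N m b hfm hN ⟨hb.1, hb.2.1⟩).2.2.2.2.2 b' ⟨hb'.1, hb'.2.1⟩ hr
    rw [hFdef]
    refine (GEs_eq hP).2 ?_
    change GE P N (χ b * oN b ^ e * gB f N m b 1 - χ b' * oN b' ^ e * gB f N m b' 1)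
    rw [h1, h0, ← mul_sub]
    exact DL.GE.mul_left (pl hP) ((hVP b').1.mul ((RS_oNvp b').pow e)) h2
  -- the first system
  have hβ1 : ∀ p : ℕ × ℕ, (f : OO n t) ∣ bp f p - 1 := fun p => ga_sub_one f p.1 p.2
  have h1 : ∀ b ∈ R, ∀ p : ℕ × ℕ, ((3 : ℤ) ^ N ∣ NI b * Nm (bp (n := n) (t := t) f p) - 1 ∨
      (3 : ℤ) ^ N ∣ NI b * Nm (bp (n := n) (t := t) f p) + 1) →
      χ (sp (bp f p) * b) * gB f N m (sp (bp f p) * b) 1 =
        χ b * (zt P (bp (n := n) (t := t) f p) ^ (k - 1) *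
          (toO (bp (n := n) (t := t) f p) * gB f N m b (bp f p))) := by
    intro b hb p hpm
    have hc3 : Cop (bp (n := n) (t := t) f p) 3 :=
      ((Int.prime_three.coprime_iff_not_dvd).2 (RS_ndvd hN hpm)).symm
    have hc : Cop (bp (n := n) (t := t) f p) (3 * f) :=
      CV_cop_mul.2 ⟨hc3, CV_cop_of_dvd (hβ1 p)⟩
    have h3 := (hG n t P hP f N m b hfm hN (hR b hb)).2.2.2.1 (bp f p) 1 hc (cop_one _)
    rw [mul_one] at h3
    rw [hχ.mul, hty _ (hβ1 p) hc3, h3]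
    ring
  have hnorm : ∀ (b : Ideal (OO n t)) (p : ℕ × ℕ), (NI (sp (bp f p) * b) : ℤ) =
      NI b * Nm (bp (n := n) (t := t) f p) := by
    intro b p
    rw [CV_NI_mul]
    push_cast
    rw [CV_NI_sp, mul_comm]
  set I : Finset (Ideal (OO n t) × ℕ × ℕ) :=
    (R ×ˢ Bx N).filter (fun p => (3 : ℤ) ^ N ∣ NI p.1 * Nm (ga (n := n) (t := t) f p.2.1 p.2.2) - 1 ∨
        (3 : ℤ) ^ N ∣ NI p.1 * Nm (ga (n := n) (t := t) f p.2.1 p.2.2) + 1) with hI
  have hmem : ∀ p, p ∈ I ↔ p.1 ∈ R ∧ p.2.1 < 3 ^ N ∧ p.2.2 < 3 ^ N ∧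
      ((3 : ℤ) ^ N ∣ NI p.1 * Nm (ga (n := n) (t := t) f p.2.1 p.2.2) - 1 ∨
        (3 : ℤ) ^ N ∣ NI p.1 * Nm (ga (n := n) (t := t) f p.2.1 p.2.2) + 1) := by
    intro p
    rw [hI, Bx, Finset.mem_filter, Finset.mem_product, Finset.mem_product, Finset.mem_range,
      Finset.mem_range]
    tauto
  obtain ⟨hinj1, hB1⟩ := hRB n t f N R hf hN hRC (fun b hb => (hR b hb).prm) I hmem
  have e1 : SI f N R 1 (fun b v => χ b * (zt P v ^ (k - 1) * (toO v * gB f N m b v))) +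
      (-1) ^ e * SI f N R (-1) (fun b v => χ b * (zt P v ^ (k - 1) * (toO v * gB f N m b v))) =
      ∑ b ∈ I.image (fun p : Ideal (OO n t) × ℕ × ℕ => sp (ga f p.2.1 p.2.2) * p.1), G b := by
    rw [Finset.sum_image (fun x hx y hy h => hinj1 hx hy h), hI, Finset.sum_filter,
      Finset.sum_product, SI, SI, Finset.mul_sum, ← Finset.sum_add_distrib]
    refine Finset.sum_congr rfl fun b hb => ?_
    rw [Finset.mul_sum, ← Finset.sum_add_distrib]
    refine Finset.sum_congr rfl fun p _ => ?_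
    change _ = (if ((3 : ℤ) ^ N ∣ NI b * Nm (bp (n := n) (t := t) f p) - 1 ∨
      (3 : ℤ) ^ N ∣ NI b * Nm (bp (n := n) (t := t) f p) + 1) then
      χ (sp (bp f p) * b) * oN (sp (bp f p) * b) ^ e * gB f N m (sp (bp f p) * b) 1 else 0)
    rw [sub_neg_eq_add]
    by_cases hA : (3 : ℤ) ^ N ∣ NI b * Nm (bp (n := n) (t := t) f p) - 1
    · have hB : ¬ (3 : ℤ) ^ N ∣ NI b * Nm (bp (n := n) (t := t) f p) + 1 := by
        intro hB
        have h5 := (RS_three hN).trans hA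
        have h6 := (RS_three hN).trans hB
        omega
      rw [if_pos hA, if_neg hB, if_pos (Or.inl hA), mul_zero, add_zero,
        (RS_oN hN (sp (bp f p) * b)).1 (by rw [hnorm]; exact hA), one_pow, mul_one]
      exact (h1 b hb p (Or.inl hA)).symm
    · by_cases hB : (3 : ℤ) ^ N ∣ NI b * Nm (bp (n := n) (t := t) f p) + 1
      · rw [if_neg hA, if_pos hB, if_pos (Or.inr hB), zero_add,
          (RS_oN hN (sp (bp f p) * b)).2 (by rw [hnorm]; exact hB), ← h1 b hb p (Or.inr hB)]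
        ring
      · rw [if_neg hA, if_neg hB, if_neg (fun h => h.elim hA hB), mul_zero, add_zero]
  -- the second system
  obtain ⟨hinj2, hB2⟩ := hRD n t f N T D hf hN hT hD
  have h2 : ∀ c ∈ D, ∀ h ∈ T, G (sp h * c) =
      χ c * oN c ^ e * (rO (⊤ : Ideal (OO n t)) c * (toO h * gO m c (toC h / (f * 3 ^ N : ℕ)))) := by
    intro c hc h hh
    have hfb : FB f c := ⟨(hD.mem c hc).1, (hD.mem c hc).2.1⟩
    obtain ⟨hHf, hnh⟩ := hT.mem h hh
    have h3 := (hG n t P hP f N m c hfm hN hfb).2.2.2.1 h 1 hHf.1 (cop_one _)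
    rw [mul_one] at h3
    have h4 : oN (sp h * c) = oN c := by
      have h5 : (NI (sp h * c) : ℤ) = Nm h * NI c := by
        rw [CV_NI_mul]
        push_cast
        rw [CV_NI_sp]
      obtain ⟨s, hs⟩ := (RS_three hN).trans hnh
      have h6 : (NI (sp h * c) : ℤ) = NI c + 3 * (s * NI c) := by
        rw [h5]
        linear_combination (NI c : ℤ) * hs
      have h7 : NI (sp h * c) % 3 = NI c % 3 := by omega
      unfold oN
      rw [h7]
    change χ (sp h * c) * oN (sp h * c) ^ e * gB f N m (sp h * c) 1 = _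
    rw [hχ.mul, hhf h hHf, h3, h4, gB]
    ring
  have e2 : (∑ c ∈ D, χ c * oN c ^ e * (rO (⊤ : Ideal (OO n t)) c *
      ∑ h ∈ T, toO h * gO m c (toC h / (f * 3 ^ N : ℕ)))) =
      ∑ b ∈ (D ×ˢ T).image (fun p : Ideal (OO n t) × OO n t => sp p.2 * p.1), G b := by
    rw [Finset.sum_image (fun x hx y hy h => hinj2 hx hy h), Finset.sum_product]
    refine Finset.sum_congr rfl fun c hc => ?_
    rw [Finset.mul_sum, Finset.mul_sum]
    exact Finset.sum_congr rfl fun h hh => (h2 c hc h hh).symm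
  refine (GEs_eq hP).1 ?_
  rw [e1, e2, RS_sum, RS_sum]
  refine DS.G.aRI n t (f * 3 ^ N) (CN f N) _ _ _ F hMpos (hB2 _ ?_) (hB1 _ ?_) hF
  · rw [Finset.coe_image]
  · rw [Finset.coe_image]

end Pool.Agent.DM.GC
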