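import Pool.Agent.Lib.DM.CV.V1
import Pool.Agent.Lib.DM.G.HNf
import Pool.Agent.Lib.DM.GL.SpecB
import Pool.Agent.Lib.DS.G.All

/-!
# Theorem DM (`p = 3`, `3` inert), from the local step to `S_LS` (author helper85; after `DN/G/SpecB.lean` of helper21)

`n t`: the ring `O`; `k ∈ {1, 2, 3}` the exponent of `w8`, `e ∈ {0, 1}` the sign `(-1)^e`; `M = f * 3 ^ N`; `gB f N m b v = (fr(b)/fr(1)) g_b(v/M)`; `β` runs through the elements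
`bp f p = 1 + f (x + y w)`, `p = (x, y) ∈ Bx N` (modulo `M`). `f' = f * NI m` (`Fok f'`): the classes of inertia elements are taken for `f'`, so that `GL.C_Act` applies to `g`.
`UU(a)`: the sum over the classes of norm `a` modulo `3^N`; `WW(a) = UU(a) + (-1)^e UU(-a)`.

Tools. `DL/Va.lean` through `GL.pl hP : DL.Pl P 3` (`hP : Ab3 P`): `DL.GE.add`, `.sub`, `.neg`, `.mul`, `.mul_left`, `.mul_right`, `.sum`, `.mono`, `.mp`, `.vp_iff`, `.tp_iff`, `.inertia`, `DL.vl_pow`, ...; `have := hP.1.1` for the instance `P.IsPrime`. `DI/Val.lean`: `VP.add`, `MP.of_pow`, `UP.mul`, ...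
`DN/Base.lean`: `toO_..`, `toC_..`, `lam_..`, `tor_..`, `cop_..`, `Nm_..`. `DN/CV/Bas.lean`: `CV_..` (`CV_zet_congr`, `CV_zet_pow`, `CV_cop_of_dvd`, `CV_cop_mul`, `CV_cast_mul`, `CV_cast_dvd`, `CV_NI_sp`, `CV_pri_pow`, ...), `DN/CV/Rp.lean`: `RpI` (indexed systems of representatives), `RpI.sum`, `RpI.mul`, `ga`, `Rp_canc`.
`DM/CV/Bas.lean` (`w_fok`, `w_fm`, `w_fb`, `w_fb_mul`, `w_fb_sp`, `w_upN`, `w_w8`, `w_zt`, `w_zt_mul`, `w_zt_congr`, `w_tm`, `w_tm_cop`, ..), `DM/CV/Phi.lean` (`gO_per`, `gO_hom`, `gO_vp`), `DM/CV/C10.lean` (`RpI_ga`), `DM/CV/V1.lean` (`v_tm_rp`, `v_rO`, `v_4`, `v_G30`, ..).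
COMPLETE, to be used directly: parts O, L (`aO1 .. aO12`, `aL1 .. aL7`), B of `DN` (`aB1 .. aB16`), `DS.G.aCop`, `DS.G.aRUp`, `DS.G.aRI`, `DS.G.aR2`, `DM.G.aHNf`.

RULES: the statement `S_X` is to be proved as `theorem tX : S_X` in the module `Pool/Agent/Lib/DM/GC/X.lean` with the first line
`import Pool.Agent.Lib.DM.GC.Spec`, `set_option autoImplicit false`, `open scoped Pointwise`, `noncomputable section`, `namespace Pool.Agent.DM.GC` and the `open`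
lines of this file. Auxiliary declarations are `private`. All modules are independent.
-/

set_option autoImplicit false

open scoped Pointwise

noncomputable section

namespace Pool.Agent.DM.GC

open Pool.Agent.MuZ Pool.Agent.FW Pool.Agent.DN Pool.Agent.DM
open Pool.Agent.DI (io ofC io_inj exists_io io_ofC ofC_io VP MP UP TP ex)
open Pool.Agent.DT (kap cbr)
open Pool.Agent.DM.G (CN)
open Pool.Agent.DM.GL (vP GE pl Cls IsR Hq Un Cn od)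

variable {n t : ℕ}

/-! ## Definitions -/

/-- The pairs `(x, y)` modulo `3 ^ N`. -/
def Bx (N : ℕ) : Finset (ℕ × ℕ) := Finset.range (3 ^ N) ×ˢ Finset.range (3 ^ N)

/-- `1 + f (x + y w)`. -/
def bp (f : ℕ) (p : ℕ × ℕ) : OO n t := ga f p.1 p.2

/-- The term `(fr(b)/fr(1)) g_b(v/(f 3^N))`. -/
def gB (f N : ℕ) (m b : Ideal (OO n t)) (v : OO n t) : Om :=
  rO (⊤ : Ideal (OO n t)) b * gO m b (toC v / (f * 3 ^ N : ℕ))

/-- The sum over the classes `(b, β)`, `b ∈ R`, `β = 1 + f (x + y w)` modulo `f 3^N`, with `N(b) N(β) = a` modulo `3^N`. -/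
def SI (f N : ℕ) (R : Finset (Ideal (OO n t))) (a : ℤ) (φ : Ideal (OO n t) → OO n t → Om) : Om :=
  ∑ b ∈ R, ∑ p ∈ Bx N, if (3 : ℤ) ^ N ∣ NI b * Nm (bp (n := n) (t := t) f p) - a then φ b (bp f p) else 0

/-- The number `U(a)`. -/
def UU (P : Ideal ZZ) (f N k : ℕ) (m : Ideal (OO n t)) (R : Finset (Ideal (OO n t)))
    (χ : Ideal (OO n t) → Om) (a : ℤ) : Om :=
  w8 ^ k * SI f N R a (fun b v => χ b * (zt P v ^ k * gB f N m b v))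

/-- The number `W(a) = U(a) + (-1)^e U(-a)`. -/
def WW (P : Ideal ZZ) (f N k e : ℕ) (m : Ideal (OO n t)) (R : Finset (Ideal (OO n t)))
    (χ : Ideal (OO n t) → Om) (a : ℤ) : Om :=
  UU P f N k m R χ a + (-1) ^ e * UU P f N k m R χ (-a)

/-- The additive group of the `x` with `v(x) ≥ q`. -/
def GEs (P : Ideal ZZ) (hP : Ab3 P) (q : ℚ) : AddSubgroup Om where
  carrier := {x | GE P q x}
  zero_mem' := DL.GE.zero q
  add_mem' := by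
    intro x y hx hy
    have := hP.1.1
    exact DL.GE.add (pl hP) hx hy
  neg_mem' := by
    intro x hx
    have := hP.1.1
    exact DL.GE.neg (pl hP) hx

theorem GEs_eq {P : Ideal ZZ} (hP : Ab3 P) {q : ℚ} {x y : Om} :
    (QuotientAddGroup.mk x : Om ⧸ GEs P hP q) = QuotientAddGroup.mk y ↔ GE P q (x - y) := by
  have := hP.1.1
  rw [QuotientAddGroup.eq]
  change GE P q (-x + y) ↔ GE P q (x - y)
  have e1 : -x + y = -(x - y) := by ring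
  rw [e1]
  constructor
  · intro h
    have h1 := DL.GE.neg (pl hP) h
    rwa [neg_neg] at h1
  · intro h
    exact DL.GE.neg (pl hP) h

theorem GEs_zero {P : Ideal ZZ} (hP : Ab3 P) {q : ℚ} {x : Om} :
    (QuotientAddGroup.mk x : Om ⧸ GEs P hP q) = 0 ↔ GE P q x :=
  QuotientAddGroup.eq_zero_iff x

/-! ## 0. Systems of representatives of ray classes (proved by helper21) -/

/-- The classes modulo `f 3^N`, with norm `± 1` modulo `3^N`: the products `sp β * b`. -/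
def C_RB : Prop :=
  ∀ (n t : ℕ) [SqN n t] (f N : ℕ) (R : Finset (Ideal (OO n t))), Fok f → 1 ≤ N → IsRC f R →
    (∀ b ∈ R, PrI b (3 * f)) → ∀ I : Finset (Ideal (OO n t) × ℕ × ℕ),
    (∀ p, p ∈ I ↔ p.1 ∈ R ∧ p.2.1 < 3 ^ N ∧ p.2.2 < 3 ^ N ∧
      ((3 : ℤ) ^ N ∣ NI p.1 * Nm (ga (n := n) (t := t) f p.2.1 p.2.2) - 1 ∨
        (3 : ℤ) ^ N ∣ NI p.1 * Nm (ga (n := n) (t := t) f p.2.1 p.2.2) + 1)) →
    Set.InjOn (fun p : Ideal (OO n t) × ℕ × ℕ => sp (ga f p.2.1 p.2.2) * p.1) (I : Set _) ∧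
    ∀ B : Finset (Ideal (OO n t)), (B : Set (Ideal (OO n t))) =
      (fun p : Ideal (OO n t) × ℕ × ℕ => sp (ga f p.2.1 p.2.2) * p.1) '' (I : Set _) →
      DS.G.IsRI (f * 3 ^ N) (CN f N) B

/-- The classes modulo `f 3^N`, with norm `± 1` modulo `3^N`: the products `sp h * c`. -/
def C_RD : Prop :=
  ∀ (n t : ℕ) [SqN n t] (f N : ℕ) (T : Finset (OO n t)) (D : Finset (Ideal (OO n t))), Fok f →
    1 ≤ N → IsRep f N T → IsDS f N D →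
    Set.InjOn (fun p : Ideal (OO n t) × OO n t => sp p.2 * p.1)
      ((D ×ˢ T : Finset (Ideal (OO n t) × OO n t)) : Set _) ∧
    ∀ B : Finset (Ideal (OO n t)), (B : Set (Ideal (OO n t))) =
      (fun p : Ideal (OO n t) × OO n t => sp p.2 * p.1) ''
        ((D ×ˢ T : Finset (Ideal (OO n t) × OO n t)) : Set _) →
      DS.G.IsRI (f * 3 ^ N) (CN f N) B

/-! ## 1. Representatives, characters, class functions -/

open Classical in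
/-- The systems of representatives modulo `f 3^N`. -/
def C_Bt : Prop :=
  ∀ (n t : ℕ) [Ine3 n t] (f N : ℕ), Fok f →
    RpI (fun v : OO n t => (f : OO n t) ∣ v - 1) (f * 3 ^ N) (Bx N) (bp f) ∧
    (1 ≤ N →
      RpI (fun v : OO n t => (f : OO n t) ∣ v - 1 ∧ Cop v 3) (f * 3 ^ N)
        ((Bx N).filter (fun p => Cop (bp (n := n) (t := t) f p) 3)) (bp f) ∧
      RpI (fun v : OO n t => (f : OO n t) ∣ v - 1 ∧ Cop v 3) (f * 3 ^ N)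
        (tm n t f ×ˢ Bx (N - 1)) (fun p => p.1 * ga (3 * f) p.2.1 p.2.2))

/-- (80 lines) **Bt** (from Tm). Edit of `DN/G/Bt.lean`. PROOF. First: `v = 1 + f γ`, `γ = ⟨x', y'⟩`; `p` = the residues of `x', y'` modulo `3^N` (`Int.emod`, `Int.toNat`); injectivity: `f 3^N ∣ f (x - x')` gives `3^N ∣ x - x'` (`nat_dvd_iff`), both `< 3^N`. Second: from the first; `Cop` is invariant (`cop_congr`, `3 ∣ f 3^N`). Third: `RpI_ga` (`DM/CV/C10.lean`)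
with `p = 3`, `e = 3 f`, `q' = 3^(N-1)` (`3 f * 3^(N-1) = f * 3^N`), `S = tm n t f`, `α = id`, and `v_tm_rp` (`DM/CV/V1.lean`); `Cop α (3 f 3^(N-1))`: `w_tm_cop`. -/
def S_Bt : Prop := S_Tm → C_Bt

/-- The half system `od N`. -/
def C_Od : Prop :=
  ∀ N : ℕ, 1 ≤ N → (∀ s : ℤ, ¬ (3 : ℤ) ∣ s → ∃ a ∈ od N, (3 : ℤ) ^ N ∣ s - a ∨ (3 : ℤ) ^ N ∣ s + a) ∧
    (∀ a ∈ od N, ¬ (3 : ℤ) ∣ (a : ℤ)) ∧
    (∀ a ∈ od N, ∀ a' ∈ od N, ((3 : ℤ) ^ N ∣ (a : ℤ) - a' ∨ (3 : ℤ) ^ N ∣ (a : ℤ) + a') → a = a') ∧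
    (∀ a ∈ od N, ¬ (3 : ℤ) ^ N ∣ 2 * (a : ℤ)) ∧
    ∀ (F : ℤ → Om), (∀ a a' : ℤ, ((3 : ℤ) ^ N ∣ a - a' ∨ (3 : ℤ) ^ N ∣ a + a') → F a = F a') →
      ∀ u : ℤ, ¬ (3 : ℤ) ∣ u → ∑ a ∈ od N, F (u * a) = ∑ a ∈ od N, F a

/-- (90 lines) **Od**. PROOF. `od N` = the `a < (3^N + 1)/2`, prime to `3`, i.e. `0 < a ≤ (3^N - 1)/2`. (1) `r = s mod 3^N` (`Int.emod`), prime to `3`: `a = r` if `r ≤ (3^N - 1)/2`, otherwise `a = 3^N - r`. (3) `|a - a'| < 3^N`; `0 < a + a' < 3^N`. (4) `0 < 2 a < 3^N`. (5) `F a` for `a ∈ od N`: let `π a ∈ od N` with `3^N ∣ u a ∓ π a` ((1)); `π` is injective on `od N`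
(`u` is invertible modulo `3^N`: `3^N ∣ u (a ∓ a')` gives `3^N ∣ a ∓ a'`; (3)), so it is a bijection of `od N` (`Finset.sum_nbij`, `Finset.surjOn_of_injOn_of_card_le`; or `Finset.sum_bij_of..`), and `F (u a) = F (π a)`. -/
def S_Od : Prop := C_Od

/-- An element `= 1` modulo `f` with given norm modulo `3 ^ N`; it is `1` modulo `3` if the norm is. -/
def C_V0 : Prop :=
  ∀ (n t : ℕ) [Ine3 n t] (f N : ℕ) (a : ℤ), 0 < f → f.Coprime 3 → 1 ≤ N → ¬ (3 : ℤ) ∣ a →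
    ∃ v : OO n t, (f : OO n t) ∣ v - 1 ∧ (3 : ℤ) ^ N ∣ Nm v - a ∧ Cop v 3 ∧
      ((3 : ℤ) ∣ a - 1 → (3 : OO n t) ∣ v - 1)

/-- (110 lines) **V0**. PROOF. LEMMA: `3 ∣ a - 1` gives an integer `w` with `3^N ∣ w² - a`, `3 ∣ w - 1`: `3^N ∣ a^(3^(N-1)) - 1` (`dvd_sub_pow_of_dvd_sub`, `p = 3`, `b = 1`), `3^(N-1) + 1 = 2 j`, `w = a^j` (see `V0` in `DM/G/GRm.lean`). (a) `3 ∣ a - 1`: `x f + y 3^N = 1` (Bezout), the integer `v0 = x f w + y 3^N` is `w` modulo `3^N` (`x f = 1 - y 3^N`) and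
`1` modulo `f` (`y 3^N = 1 - x f`); `v = (v0 : O)`, `Nm v = v0²` (`Nm ⟨c, 0⟩ = c²`). `3 ∣ v0 - 1`. (b) `3 ∣ a + 1`: `g0 = ⟨2 + t, 1⟩`: `4 Nm g0 = (2 (2 + t) + t)² + D = (4 + 3 t)² + D`, `D = 3 j + 1` (`GL.four_Nm`, `GL.D_mod`), so `Nm g0 = 2` modulo `3`. `g1` with `f ∣ g1 - 1`, `3^N ∣ g1 - g0` (`aO11` (last item)), `ν = Nm g1 = 2` modulo `3` (`Nm_congr`).
`ν' ν = 1` modulo `3^N`, `a ν' = 1` modulo `3`: (a) for `a ν'`: `v0` with `3^N ∣ v0² - a ν'`; `v = v0 g1`: `Nm v = v0² ν = a` modulo `3^N` (`Nm_mul`). `Cop v 3`: `Nm v = a` modulo `3`. The last claim is empty in case (b). -/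
def S_V0 : Prop := C_V0

/-- The character `χ`: integrality, inertia, types. -/
def C_ChT : Prop :=
  ∀ (n t : ℕ) [Ine3 n t] (P : Ideal ZZ), Ab3 P → ∀ (f : ℕ) (χ : Ideal (OO n t) → Om), Fok f →
    IsChi (3 * f) χ →
    (∀ b : Ideal (OO n t), VP P (χ b) ∧ ∀ τ ∈ P.inertia Gal(Om/ℚ), τ (χ b) = χ b) ∧
    (∀ j : ℕ, Ty P f χ j → ∀ v : OO n t, (f : OO n t) ∣ v - 1 → Cop v 3 → χ (sp v) = zt P v ^ j) ∧
    (∀ h : OO n t, Hf f h → χ (sp h) = 1) ∧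
    (∃ j : ℕ, j < 8 ∧ Ty P f χ j) ∧
    IsChi (3 * f) (fun b => χ b ^ 3) ∧ (∀ j : ℕ, Ty P f χ j → Ty P f (fun b => χ b ^ 3) (3 * j)) ∧
    IsChi (3 * f) (fun b => χ b * oN b) ∧ (∀ j : ℕ, Ty P f χ j → Ty P f (fun b => χ b * oN b) (j + 4)) ∧
    ∀ j j' : ℕ, j % 8 = j' % 8 → Ty P f χ j → Ty P f χ j'

/-- (190 lines) **ChT** (from Rou, Zt, V0). Compare `DN/G/ChT.lean`. `C_Zt.1 : S_T0`. PROOF. (1) `χ b` is `0` or `χ b ^ m' = 1`, `m'` prime to `3` (`IsChi.zero`, `IsChi.cop`): Rou. (2) `x = χ (sp v)`, `y = zt P v ^ j`: `x ^ m' = 1`, `y ^ 8 = 1`, `MP P (x - y)` (`Ty`, Zt: `MP P (zt P v - toO v)`, powers), so `x y⁻¹` satisfies Rou with `8 m'`. (3) `h ≠ 0` (`Cop h (3 f)`, `CV_ne_of_cop`);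
`3 f ∣ h^(3^j) - 1`: `Ray (3 f) (sp (h^(3^j))) ⊤` (`aO7` (8) with `e = 1`, `⊤ = sp 1`), so `χ (sp h)^(3^j) = χ ⊤ = 1` (`χ ⊤ = χ ⊤ ^ 2`, `χ ⊤ ≠ 0`), with `χ (sp h) ^ m' = 1`: `χ (sp h) = 1` (coprime exponents: `pow_gcd_eq_one`). (4) For `v, u = 1` modulo `f`, prime to `3`, `3 ∣ v - u`: `3 f ∣ v - u` (`CV_cast_mul`), `χ (sp v) = χ (sp u)` (`IsChi.ray`, `aO7` (8)); multiplicative (`IsChi.mul`,
`CV_sp_mul`), `1` at `v = 1`. V0 with `a = -1`, `N = 1`: `v0`, `f ∣ v0 - 1`, `3 ∣ Nm v0 + 1`, `ξ = zt P v0`, `ξ^4 = -1` (S_T0), so `ξ` is a primitive eighth root of unity. `3 ∣ v0^8 - 1` (Zt), so `χ (sp v0)^8 = 1`, `χ (sp v0) = ξ^j`, `j < 8` (`IsPrimitiveRoot.eq_pow_of_pow_eq_one`). Every `v`: `zt P v = ξ^i = zt P (v0^i)`, so `3 ∣ v - v0^i` (S_T0), `χ (sp v) = χ (sp v0)^i = ξ^(i j) = zt P v ^ j`,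
and `MP P (zt P v ^ j - toO v ^ j)`. (5) the four fields of `IsChi`. (6) cubes: `MP P (x - y)` gives `MP P (x ^ 3 - y ^ 3)` (`toO v` integral). (7) `oN b = ± 1` for `b` prime to `3` (`NI b % 3 ≠ 0`), `oN (a * b) = oN a * oN b` for all `a, b` (`CV_NI_mul`, `Nat.mul_mod`, nine cases), class function (`aO9`-like: `Ray (3 f) b b'` gives `NI b = NI b'` modulo `3 f`), order prime to `3`: exponent `2 m'`. (8) `v` prime to `3`:
`oN (sp v) = zt P v ^ 4` (`CV_NI_sp`, S_T0: `zt^4 = 1 ↔ 3 ∣ Nm v - 1`, `= -1 ↔ 3 ∣ Nm v + 1`), and `MP P (zt^4 - toO v^4)`; product. (9) `toO v ^ 8 - 1 ∈ P` (`3 ∣ v^8 - 1`, Zt), `toO v` integral: `MP P (toO v ^ j - toO v ^ j')`: both are congruent to `zt P v ^ j = zt P v ^ j'`. -/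
def S_ChT : Prop := GL.C_Rou → GL.C_Zt → C_V0 → C_ChT

/-- The terms `gB`: homogeneity, class function modulo `3^N`. -/
def C_Gb : Prop :=
  ∀ (n t : ℕ) [Ine3 n t] (P : Ideal ZZ), Ab3 P → ∀ (f N : ℕ) (m b : Ideal (OO n t)), FM f m → 1 ≤ N → FB f b →
    (∀ v : OO n t, (f : OO n t) ∣ v - 1 → VP P (gO m b (toC v / (f * 3 ^ N : ℕ))) ∧ VP P (gB f N m b v)) ∧
    (∀ v : OO n t, Cop v (3 * f) → toC v / (f * 3 ^ N : ℕ) ∉ Lam (m * b)) ∧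
    (∀ v u : OO n t, ((f * 3 ^ N : ℕ) : OO n t) ∣ v - u →
      gO m b (toC v / (f * 3 ^ N : ℕ)) = gO m b (toC u / (f * 3 ^ N : ℕ)) ∧ gB f N m b v = gB f N m b u) ∧
    (∀ v u : OO n t, Cop v (3 * f) → Cop u (3 * f) →
      gB f N m (sp v * b) u = toO v * gB f N m b (v * u)) ∧
    (∀ v u : OO n t, (f : OO n t) ∣ v - 1 → Cop v 3 →
      gO m (sp v * b) (toC u / (f * 3 ^ N : ℕ)) = gO m b (toC (v * u) / (f * 3 ^ N : ℕ))) ∧
    ∀ b' : Ideal (OO n t), FB f b' → Ray (f * 3 ^ N) b b' → GE P N (gB f N m b 1 - gB f N m b' 1)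

/-- (140 lines) **Gb** (from B7, R1, D2, D9). Edit of `DN/G/Gb.lean`. PROOF. `w_fm`, `w_fb`. (1) `gO_vp` (`DM/CV/Phi.lean`) with `e' = 1`; `rO ⊤ b` is a unit: S_D2 (last) for `b := ⊤`, `a := b` (`b * ⊤ = b`). (2) `toC v / M ∈ Lam a`, `a = m * b` prime to `M = f 3^N`, iff `M ∣ v` (`aL6` (1)), but `Cop v M` and `M > 1`. (3) `gO_per` (`toC v / M - toC u / M = toC c ∈ Lam ⊤ ⊆ Lam b`).
(4) `z = toC u / M ∉ Lam (m * (sp v * b))` ((2) for the ideal `sp v * b`, which is `FB`), `toC (v u) / M = toC v * z ∉ Lam (m * b)` ((2)): by S_R1 `io (gO ..) = gC ..`, `io (rO ⊤ b) = fr b / fr ⊤`, `fr b, fr (sp v * b), fr ⊤ ≠ 0` (from S_R1: `rO ≠ 0` and `io`; or `DM.aB1`). Homogeneity (`DN.aB7` (1), as in `gO_hom`): `KC (sp v * b) z = toC v * KC b (toC v * z)`, also for `m * b`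
(`m * (sp v * b) = sp v * (m * b)`). So both sides have the image `toC v * (KC (m * b) (toC v * z) - NI m * KC b (toC v * z)) / fr ⊤` under `io` (`io (toO v) = toC v`). (5) `gO_hom` (`4 ∣ v - 1`: `v_4`). (6) `sp α * b = sp α' * b'`, `M ∣ α - α'`, both prime to `M`. `β` with `M ∣ α β - 1` (`cop_inv`); `a1 = α β`, `a2 = α' β`: `sp a1 * b = sp a2 * b'`, `M ∣ a1 - 1`,
`M ∣ a2 - 1`. By (4), (3): `toO a1 * gB b 1 = gB (sp a1 * b) 1 = gB (sp a2 * b') 1 = toO a2 * gB b' 1`. So `toO a1 * (gB b 1 - gB b' 1) = toO (a2 - a1) * gB b' 1`, `3^N ∣ a2 - a1` in `O`: `GE P N`; `toO a1` is a unit at `P` (`toO (a1 - 1)` is `3` times an integral element). -/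
def S_Gb : Prop := S_B7 → S_R1 → S_D2 → S_D9 → C_Gb

/-! ## 2. The sums -/

/-- **RS**. Reindexing: the classes modulo `f 3^N` with norm `± 1`. -/
def C_RS : Prop :=
  ∀ (n t : ℕ) [Ine3 n t] (P : Ideal ZZ), Ab3 P → ∀ (f N k e : ℕ) (m : Ideal (OO n t))
    (R : Finset (Ideal (OO n t))) (χ : Ideal (OO n t) → Om) (T : Finset (OO n t))
    (D : Finset (Ideal (OO n t))), FM f m → FR f R → IsRC f R → IsChi (3 * f) χ →
    Ty P f χ (k - 1) → 1 ≤ N → IsRep f N T → IsDS f N D →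
    GE P N ((∑ c ∈ D, χ c * oN c ^ e * (rO (⊤ : Ideal (OO n t)) c *
        ∑ h ∈ T, toO h * gO m c (toC h / (f * 3 ^ N : ℕ)))) -
      (SI f N R 1 (fun b v => χ b * (zt P v ^ (k - 1) * (toO v * gB f N m b v))) +
        (-1) ^ e * SI f N R (-1) (fun b v => χ b * (zt P v ^ (k - 1) * (toO v * gB f N m b v)))))

/-- (150 lines) **RS** (from RB, RD, ChT, Gb). Edit of `DN/G/RS.lean`. PROOF. `A = Om ⧸ GEs P hP N`, `F b' = mk (χ b' * oN b' ^ e * gB f N m b' 1)` (`GEs_eq`). `F b = F b'` for `CN f N b`, `CN f N b'`, `Ray (f 3^N) b b'`: `χ b = χ b'` (`Ray (3 f)`: `aO7` (7), `3 f ∣ f 3^N`), `oN b = oN b'` (`NI b = NI b'` modulo `3`: `aO9`), Gb (6), `GE.mul_left`. FIRST SYSTEM: C_RB with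
`I = (R ×ˢ Bx N).filter (fun p => 3^N ∣ NI p.1 * Nm (bp f p.2) - 1 ∨ 3^N ∣ .. + 1)`, `B = I.image (fun p => sp (ga ..) * p.1)`; `∑_(b' ∈ B) F b' = ∑_(p ∈ I) F (sp β * b)` (`Finset.sum_image`), and `χ (sp β * b) * gB (sp β * b) 1 = χ b * (zt P β ^ (k-1) * (toO β * gB b β))` (`IsChi.mul`, ChT (2), Gb (4) with `u = 1`; `Nm β` is prime to `3` (`1 ≤ N`), so `Cop β 3`, `Cop β (3 f)`, `f ∣ β - 1`: `ga_sub_one`),
`oN (sp β * b) = 1` in the first case, `-1` in the second (`NI (sp β * b) = Nm β * NI b` modulo `3`; the cases are disjoint: `3^N` does not divide `2`). So this is `mk` of the two `SI` (`Finset.sum_filter`, `Finset.sum_product`, `if p ∨ q`). SECOND SYSTEM: C_RD with `B' = (D ×ˢ T).image (fun p => sp p.2 * p.1)`: `χ (sp h * c) * oN (sp h * c) ^ e * gB (sp h * c) 1 = χ c * oN c ^ e * (toO h * gB c h)`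
(`HN f N h`: `Hf f h`, ChT (3), `Cop h (3 f)`, `Nm h = 1` modulo `3`; Gb (4)). `DS.G.aRI` (`M = f 3^N`, `C = CN f N`): the two sums of `F` are equal. -/
def S_RS : Prop := C_RB → C_RD → C_ChT → C_Gb → C_RS

open Classical in
/-- **Cos**. A sum over a union of cosets of the group `H'` vanishes if the sums over the cosets do. -/
def C_Cos : Prop :=
  ∀ (n t : ℕ) [Ine3 n t] (f f' N : ℕ), Fok f → Fok f' → f ∣ f' → 2 ≤ N → ∀ T : Finset (OO n t), IsR N (Hq f' N) T →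
    ∀ (A : Type) [AddCommGroup A] (a : OO n t → A) (C : OO n t → Prop), (∀ v, C v → Cop v 3) →
      (∀ v u : OO n t, C v → ((f * 3 ^ N : ℕ) : OO n t) ∣ v - u → C u) →
      (∀ v h : OO n t, C v → Hq f' N h → C (h * v)) →
      (∀ v u : OO n t, C v → (f : OO n t) ∣ v - 1 → ((f * 3 ^ N : ℕ) : OO n t) ∣ v - u → a v = a u) →
      (∀ v : OO n t, C v → (f : OO n t) ∣ v - 1 → ∑ h ∈ T, a (h * v) = 0) →
      (∑ p ∈ Bx N, if C (bp f p) then a (bp f p) else 0) = 0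

/-- (160 lines) **Cos** (from Bt). Edit of `DN/G/Cos.lean` (`2 → 3`, `4 → 9`). PROOF. Strong induction on the number of elements of `J = {p ∈ Bx N | C (bp p)}` (for all `C` with the first three properties; the other two are inherited by a smaller `C`). `J = ∅`: clear. Otherwise let `v0 = bp p0`, `p0 ∈ J`, and `E v :⇔ (f : O) ∣ v - 1 ∧ ∃ h, Hq f' N h ∧ f 3^N ∣ v - h * v0`. `Hq f' N` is closed under products, contains `1`, and every `h` with `Hq f' N h` has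
an inverse: `h''` with `Hq f' N h''`, `f' 3^N ∣ h h'' - 1` (`cop_inv` modulo `f' 3^N`; `f' ∣ h'' - 1`, `9 ∣ h'' - 1` as `N ≥ 2`, `Nm h'' = 1` modulo `3^N`: `Nm_mul`, `Nm_congr`). `E v` implies `C v`; `C' v :⇔ C v ∧ ¬ ∃ h, Hq f' N h ∧ f 3^N ∣ v - h * v0` has the first three properties, and `p0` is not in its set `J'`.
The sum over `J` is the sum over `J'` (which is `0` by induction) plus the sum over `{p ∈ Bx N | E (bp p)}`. The latter is `∑ h ∈ T, a (h * v0) = 0` by `RpI.sum` for the property `Q = E` and the two systems `(Bx N).filter (E ∘ bp)`, `bp` (Bt) and `T`, `fun h => h * v0` (`mem`: `Hq f' N h`, `f ∣ h - 1`; `inj`: `f 3^N ∣ (h - h') v0`, so `3^N ∣ h - h'` (`Rp_canc`: `Cop v0 3`), `IsR.uni`; `ex`: `IsR.ex`: `3^N ∣ h - h1`, and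
`f ∣ h - h1`, so `f 3^N ∣ h - h1` (`CV_cast_mul`)). -/
def S_Cos : Prop := C_Bt → C_Cos

/-- **SU**. The comparison of `β` with `zt P β`. -/
def C_SU : Prop :=
  ∀ (n t : ℕ) [Ine3 n t] (P : Ideal ZZ), Ab3 P → ∀ (f N k : ℕ) (m : Ideal (OO n t))
    (R : Finset (Ideal (OO n t))) (χ : Ideal (OO n t) → Om) (a : ℤ), FM f m → FR f R → IsChi (3 * f) χ → 3 ≤ N →
    ¬ (3 : ℤ) ∣ a → GE P (11 / 8 - 6 / 3 ^ N)
      (SI f N R a (fun b v => χ b * (zt P v ^ (k - 1) * ((toO v - zt P v) * gB f N m b v))))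

/-- (160 lines) **SU** (from D2, Act, Rep, Sur, Tra, Zt, Pnt, ChT, Gb, Cos). Edit of `DN/G/SU.lean`. PROOF. `q = 11/8 - 6/3^N`, `q ≤ 2 ≤ N`. `GE.sum` over `b ∈ R`: fix `b` (`FB f b`). `f' = f * NI m`, `Fok f'` (`w_fm`). `T` with `IsR N (Hq f' N) T` (Rep (1)). Cos with `A = Om ⧸ GEs P hP q`, `C v :⇔ 3^N ∣ NI b * Nm v - a` (so `Nm v` is prime to `3`; invariant by `Nm_congr`, `Hq`: `3^N ∣ Nm h - 1`),
`a v = mk (χ b * (zt P v ^ (k-1) * ((toO v - zt P v) * gB f N m b v)))`. PERIODICITY (`f 3^N ∣ v - u`): `zt P v = zt P u` (`w_zt_congr`), `gB` (Gb (3)), and `toO v - toO u = toO (v - u)` is `3^N` times an integral element: the difference is in `GE P N`. COSETS: fix `v`, `f ∣ v - 1`, `C v`, so `Cop v 3`. `h ∈ T`: `zt P (h * v) = zt P v` (`3 ∣ h v - v`), `toO (h v) - zt P (h v) = (toO v - zt P v) + toO (h - 1) * toO v`, `9 ∣ h - 1`: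
the second summand gives a term in `GE P 2`. The first gives `χ b * zt P v ^ (k-1) * (toO v - zt P v) * rO ⊤ b * ∑_(h ∈ T) gO m b (toC (h * v) / M)`. `s h` an inertia element with `Cls P f' N h (s h)` (Sur for `f'`; `Cop h 3` as `9 ∣ h - 1`), `x = gO m b (toC v / M)`: `s h x = gO m b (toC h * (toC v / M))` (Act for `f'`, `NI m ∣ f'`; `(f' 3^N) z = toC (NI m * v) ∈ Lam b`, `z ∉ Lam (m b)`: Gb (2), `Cop v (3 f)`),
`x` is fixed by the elements of class `1` for `f'` (Act with `h = 1`), `VP P x` (Gb (1)). Tra (with `z0, d` from Pnt): `GE P (3/8 - 6/3^N) (∑ s h x)`; `GE P 1 (toO v - zt P v)` (S_T0: `TP P 3`, `GE.tp_iff`); `GE.mul`: `GE P q`. (`χ b`: ChT, `zt`: `w_zt`, `rO ⊤ b`: S_D2 (last).) -/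
def S_SU : Prop :=
  S_D2 → GL.C_Act → GL.C_Rep → GL.C_Sur → GL.C_Tra → GL.C_Zt → GL.C_Pnt → C_ChT → C_Gb → C_Cos → C_SU

/-- The hypotheses of the local step. -/
structure Hy (P : Ideal ZZ) (f N k e : ℕ) (m : Ideal (OO n t)) (R : Finset (Ideal (OO n t)))
    (χ : Ideal (OO n t) → Om) : Prop where
  fm : FM f m
  fr : FR f R
  rc : IsRC f R
  chi : IsChi (3 * f) χ
  ab : Ab3 P
  hk : k = 1 ∨ k = 2 ∨ k = 3
  he : e = 0 ∨ e = 1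
  ty : Ty P f χ (k - 1)
  hN : 3 ≤ N
  ex : ∃ T : Finset (OO n t), IsRep f N T ∧ ∃ D : Finset (Ideal (OO n t)), IsDS f N D ∧
    ∀ d : Gal(Om/ℚ), IsD n t f P d → MP P (∑ c ∈ D, χ c * oN c ^ e * ((kap (uN f N m T c) d).val : Om))

/-- **U1**. The number `W(1)`. -/
def C_U1 : Prop :=
  ∀ (n t : ℕ) [Ine3 n t] (P : Ideal ZZ) (f N k e : ℕ) (m : Ideal (OO n t))
    (R : Finset (Ideal (OO n t))) (χ : Ideal (OO n t) → Om), Hy P f N k e m R χ →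
    ∃ C th : Om, Cn P C ∧ GE P (3 / 8 - 4 / 3 ^ N) th ∧
      (∀ (f' : ℕ) (h : OO n t) (τ : Gal(Om/ℚ)), Fok f' → f ∣ f' → Cls P f' N h τ →
        GE P 2 (toO h * τ th - (Nm h : Om) * th)) ∧
      GE P ((k + 11) / 8 - 6 / 3 ^ N) (WW P f N k e m R χ 1 - w8 ^ k * (C * th))

/-- (80 lines) **U1** (from LSS, Zt, RS, SU). PROOF. LSS (with `IsDS.mem`): `C`, `th`. `SI f N R a` is additive in `φ` (`Finset.sum_sub_distrib`, `ite`): with `zt^(k-1) * (toO v * g) - zt^(k-1) * ((toO v - zt) * g) = zt^k * g` (`k ≥ 1`) `WW P f N k e m R χ 1 = w8^k * (A - B)`, `A` the sum of the two `SI` of RS, `B` the sum of SU for `a = 1` plus `(-1)^e` times the one for `a = -1`.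
RS and LSS: `GE P (11/8 - 6/3^N) (A - C th)` (`4/3^N ≤ 6/3^N`, `11/8 ≤ N`); SU: the same for `B` (`-1` is not divisible by `3`; `(-1)^e` is integral). `GE P (k/8) (w8^k)`: `vP P w8 = 1/8` (Zt), `DL.vl_pow`. -/
def S_U1 : Prop := GL.C_LSS → GL.C_Zt → C_RS → C_SU → C_U1

/-- **UAct**. The action of inertia on the numbers `U(a)`. -/
def C_UAct : Prop :=
  ∀ (n t : ℕ) [Ine3 n t] (P : Ideal ZZ), Ab3 P → ∀ (f N k : ℕ) (m : Ideal (OO n t))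
    (R : Finset (Ideal (OO n t))) (χ : Ideal (OO n t) → Om), FM f m → FR f R → IsChi (3 * f) χ → 1 ≤ N → 1 ≤ k →
    (∀ a a' : ℤ, (3 : ℤ) ^ N ∣ a - a' → UU P f N k m R χ a = UU P f N k m R χ a') ∧
    ∀ (a : ℤ) (h : OO n t) (τ : Gal(Om/ℚ)), ¬ (3 : ℤ) ∣ a → Cls P (f * NI m) N h τ →
      τ (UU P f N k m R χ a) = UU P f N k m R χ (Nm h * a)

/-- (130 lines) **UAct** (from Act, Zt, Tc, ChT, Gb, Bt). Edit of `DN/G/UAct.lean`. PROOF. (1) `3^N ∣ x - a ↔ 3^N ∣ x - a'`. (2) `f' = f * NI m`, `Fok f'`. Let `b ∈ R`, `v = bp f p`, `3^N ∣ NI b * Nm v - a`: `Nm v` is prime to `3` (`N ≥ 1`), `Cop v (3 f)` (`f ∣ v - 1`: `ga_sub_one`). `τ (w8 ^ k) = zt P h ^ k * w8 ^ k` (Tc), `τ (χ b) = χ b` (ChT (1); `Cls.ine`),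
`τ (zt P v) = zt P v` (`w_zt`), `τ (rO ⊤ b) = rO ⊤ b`, `τ (gO m b (toC v / M)) = gO m b (toC (h * v) / M)` (Act for `f'`: `NI m ∣ f'`, `(f' 3^N) z = toC (NI m * v) ∈ Lam b`, `z ∉ Lam (m * b)`: Gb (2)), `zt P h ^ k * zt P v ^ k = zt P (h * v) ^ k` (`w_zt_mul`). So `τ (UU a) = w8 ^ k * ∑_b ∑_p F_b (h * bp f p)`,
`F_b u = if 3^N ∣ NI b * Nm u - Nm h * a then χ b * (zt P u ^ k * gB f N m b u) else 0`, because `3^N ∣ NI b * Nm v - a ↔ 3^N ∣ NI b * Nm (h * v) - Nm h * a` (`Nm h` is prime to `3`). `F_b` is periodic modulo `f 3^N` on the elements `= 1` modulo `f` (Gb (3), `w_zt_congr`, `Nm_congr`; if `3` divides `Nm u` the condition is false). `RpI.mul` (with an inverse of `h` modulo `f 3^N`, which is `= 1` modulo `f`)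
and `RpI.sum` for the first system of Bt: `∑_p F_b (h * bp f p) = ∑_p F_b (bp f p)`. -/
def S_UAct : Prop := GL.C_Act → GL.C_Zt → GL.C_Tc → C_ChT → C_Gb → C_Bt → C_UAct

/-- **Abs**. The valuation of `W(1)`, `(k, e) ≠ (1, 1)`; of `W(u) - W(1)`, `u = 1` modulo `3`, for `k = e = 1`. -/
def C_Abs : Prop :=
  ∀ (n t : ℕ) [Ine3 n t] (P : Ideal ZZ) (f N k e : ℕ) (m : Ideal (OO n t))
    (R : Finset (Ideal (OO n t))) (χ : Ideal (OO n t) → Om), Hy P f N k e m R χ →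
    (¬ (k = 1 ∧ e = 1) → GE P (3 / 2 - 6 / 3 ^ N) (WW P f N k e m R χ 1)) ∧
    (k = 1 → e = 1 → ∀ u : ℤ, (3 : ℤ) ∣ u - 1 →
      GE P (3 / 2 - 6 / 3 ^ N) (WW P f N k e m R χ u - WW P f N k e m R χ 1))

/-- (170 lines) **Abs** (from Sur, Zt, Tc, V0, ChT, U1, UAct). PROOF. `f' = f * NI m`, `Fok f'`, `f ∣ f'`. U1: `C, th`, `E = WW 1 - w8^k C th`, `GE ((k+11)/8 - 6/3^N) E`, `W = WW 1`. (A) V0 for `f'` and `a = -1`: `g`, `f' ∣ g - 1`, `3^N ∣ Nm g + 1`, `Cop g 3`; Sur: inertia `σ` with `Cls P f' N g σ`; `ξ = zt P g`, `ξ^4 = -1` (S_T0: `3 ∣ Nm g + 1`). UAct: `σ (UU 1) = UU (Nm g) = UU (-1)`,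
`σ (UU (-1)) = UU (-Nm g) = UU 1`, so `σ W = (-1)^e W`. `σ (w8^k C th) = ξ^k w8^k C (σ th)` (Tc; `Cn P C`). CLAIM: `GE P (11/8 - 4/3^N) (ξ σ th + th)`: `toO g σ th - Nm g th` is `GE 2`, `(Nm g + 1) th` is `GE 2` (`3^N ∣ Nm g + 1`, `N ≥ 2`, `th` integral: `3/8 - 4/3^N ≥ 0`), and `(toO g - ξ) σ th` is `GE (1 + 3/8 - 4/3^N)` (S_T0: `TP P 3 (zt P g - toO g)`; `GE.inertia`).
So `σ (w8^k C th) + ξ^(k-1) w8^k C th = w8^k C ξ^(k-1) (ξ σ th + th)` is `GE (k/8 + 11/8 - 4/3^N)`. Apply `σ` to `W = w8^k C th + E`: `(-1)^e W = -ξ^(k-1) w8^k C th + ..`, subtract `(-1)^e` times the equation for `W`: `((-1)^e + ξ^(k-1)) w8^k C th` is `GE ((k+11)/8 - 6/3^N)`. The factor is a unit: `(-1)^e` and `-ξ^(k-1)` are eighth roots of unity (Zt (different eighth roots of unity differ by a unit)),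
and they are different: `k = 1`, `e = 0`: `1 ≠ -1`; `k = 2`: `ξ ≠ ± 1` (`ξ^4 = -1`); `k = 3`: `ξ² ≠ ± 1`. So `w8^k C th` and `W` are `GE ((k+11)/8 - 6/3^N)`, and `(k+11)/8 ≥ 3/2`. (B) `k = e = 1`. `¬ 3 ∣ u`. V0 for `f'` and `a = u`: `α`, `3 ∣ α - 1`, `3^N ∣ Nm α - u`; `σ` of class `α`: `σ W = WW u` (UAct), `σ w8 = zt P α * w8 = w8` (`zt P α = zt P 1 = 1`: S_T0, Zt). `σ E - E` is `GE (3/2 - 6/3^N)`.
`σ th - th`: `toO α (σ th - th) = (toO α σ th - Nm α th) + (Nm α - toO α) th`, `GE 2` plus `GE (1 + 3/8 - 4/3^N)` (`Nm α - 1` and `toO α - 1` are divisible by `3`), `toO α` is a unit (Zt). So `w8 C (σ th - th)` is `GE (1/8 + 11/8 - 4/3^N)`, and `WW u - WW 1 = σ W - W` is the sum. -/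
def S_Abs : Prop := GL.C_Sur → GL.C_Zt → GL.C_Tc → C_V0 → C_ChT → C_U1 → C_UAct → C_Abs

/-- **Fou**. The formula for `xs`. -/
def C_Fou : Prop :=
  ∀ (n t : ℕ) [Ine3 n t] (P : Ideal ZZ), Ab3 P → ∀ (f N k e : ℕ) (m : Ideal (OO n t))
    (R : Finset (Ideal (OO n t))) (χ : Ideal (OO n t) → Om), FM f m → FR f R → 3 ≤ N → 1 ≤ k → ∀ c : ℤ,
      xs P f k e m R χ (c / 3 ^ (N - 2)) = (3 ^ N)⁻¹ * ∑ a ∈ od N,
        (zet (3 ^ (N - 1)) ^ (c * NI m * a : ℤ) + (-1) ^ e * zet (3 ^ (N - 1)) ^ (-(c * NI m * a) : ℤ)) *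
          WW P f N k e m R χ a

/-- (190 lines) **Fou** (from C4, Zt, Gb, Bt, Od). Edit of `DN/G/Fou.lean`. PROOF. `q = 3^(N-1)`, `ζ = zet q` (`ζ^q = 1`: `CV_zet_pow`, `CV_zet_congr`), `M = f 3^N = 3 f q`, `ν = NI m` (prime to `3`). (1) Let `b ∈ R`, `c' : ℤ`, `α ∈ tm n t f` (`w_tm`; `FB f (sp α * b)`; `PrI (sp α * b) q`: `CV_pri_pow`; `q.Coprime ν`). S_C4 for `sp α * b` and `(c' / q : ℚ) = (c' / 3^(N-2)) / 3`,
`NI (sp α * b) = Nm α * NI b` (`CV_NI_sp`), Gb (5) (`u = ⟨1 + 3 f x, 3 f y⟩ = ga (3 f) x y`; `f ∣ α - 1`): `etaM (3 f) m (sp α * b) (c'/q) = (1/q) ∑_(x, y < q) ζ^(c' (ν NI b Nm (α u))) * gO m b (toC (α u) / M)`. `zt P α = zt P (α u)` (`w_zt_congr`). So by Bt (second and third system, `RpI.sum`; the summand `Φ_c' v = zt P v ^ k * (ζ^(c' (ν NI b Nm v)) * gO m b (toC v / M))`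
is periodic modulo `M` on the `v = 1` modulo `f`, prime to `3`: `w_zt_congr`, Gb (3), `Nm_congr`): `etE P f k m b (c'/3^(N-2)) = (1/q) ∑_(p ∈ Bx N, Cop (bp f p) 3) Φ_c' (bp f p)`. (2) With `c' = c` and `c' = -c`, `3 q = 3^N`: `xs = (3^N)⁻¹ w8^k ∑_b χ b rO ⊤ b ∑_(p, Cop) zt^k (ζ^(c ν s) + (-1)^e ζ^(-(c ν s))) gO m b (..)`, `s = NI b * Nm (bp f p)`, prime to `3`.
(3) For every integer `s` prime to `3` there is exactly one `a ∈ od N` with `3^N ∣ s - a` or `3^N ∣ s + a` (Od), not both (`3^N` does not divide `2 a`); in the first case `ζ^(c ν s) = ζ^(c ν a)` and the coefficient is `κ_a = ζ^(c ν a) + (-1)^e ζ^(-c ν a)`, in the second case `ζ^(c ν s) = ζ^(-c ν a)` and the coefficient is `(-1)^e κ_a`. So the coefficient is `∑_(a ∈ od N) κ_a ([3^N ∣ s - a] + (-1)^e [3^N ∣ s - (-a)])`;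
exchange the sums: the right side by the definition of `WW`, `UU`, `SI`, `gB` (if `3^N ∣ s ∓ a`, `a ∈ od N`, then `s` is prime to `3` and `Cop (bp f p) 3`). -/
def S_Fou : Prop := S_Tm → S_C4 → GL.C_Zt → C_Gb → C_Bt → C_Od → C_Fou

/-- **TrW**. The trace lemma, for the sums of `Fou`. -/
def C_TrW : Prop :=
  ∀ (n t : ℕ) [Ine3 n t] (P : Ideal ZZ), Ab3 P → ∀ (f' N e : ℕ) (ζ : Om) (i : ℤ) (δ : Om) (Y : ℤ → Om), Fok f' →
    1 ≤ N → IsPrimitiveRoot ζ (3 ^ N) → (δ = 0 ∨ δ = 1 + (-1) ^ e) →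
    (∀ a a' : ℤ, (3 : ℤ) ^ N ∣ a - a' → Y a = Y a') → (∀ a : ℤ, Y (-a) = (-1) ^ e * Y a) →
    (∀ (a : ℤ) (h : OO n t) (τ : Gal(Om/ℚ)), ¬ (3 : ℤ) ∣ a → Cls P f' N h τ → τ (Y a) = Y (Nm h * a)) →
    GE P (1 / 2) ((ζ ^ i + (-1) ^ e * ζ ^ (-i) - δ) * Y 1 / 3) →
      GE P 1 ((3 ^ N)⁻¹ * ∑ a ∈ od N, (ζ ^ (i * a) + (-1) ^ e * ζ ^ (-(i * a)) - δ) * Y a)

/-- (110 lines) **TrW** (from In, Act, Sur, TrZ, V0, Od). PROOF. `z = (ζ ^ i + (-1)^e ζ ^ (-i) - δ) * Y 1 / 3`. For `a ∈ od N` (prime to `3`: Od) V0 for `f'` gives `h_a`: `f' ∣ h_a - 1`, `3^N ∣ Nm h_a - a`, `Cop h_a 3`; `s a` an inertia element with `Cls P f' N h_a (s a)` (Sur). `s a ζ = ζ ^ (Nm h_a).toNat = ζ ^ a` (Act (1), `Nm h_a ≥ 0`, `ζ^(3^N) = 1`), so `s a (ζ ^ i) = ζ ^ (i a)` (`map_zpow₀`),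
`s a (Y 1) = Y (Nm h_a * 1) = Y a`, `s a δ = δ`: `s a z = (ζ ^ (i a) + (-1)^e ζ ^ (-(i a)) - δ) * Y a / 3`. INVARIANCE: let `τ` be inertia, `τ ζ = ζ` or `ζ⁻¹`. `Cls P f' N h τ` (In (1)); `ζ^(Nm h).toNat = ζ^(± 1)`: `3^N ∣ Nm h ∓ 1` (`IsPrimitiveRoot.zpow_eq_one_iff_dvd`). Sign `+`: `τ (Y 1) = Y (Nm h) = Y 1`, `τ z = z`. Sign `-`: `τ (Y 1) = Y (-1) = (-1)^e Y 1`, and
`τ (ζ ^ i + (-1)^e ζ ^ (-i) - δ) = (-1)^e (ζ ^ i + (-1)^e ζ ^ (-i) - δ)` (`(-1)^e (-1)^e = 1`, `(-1)^e δ = δ`). TrZ: `GE P N (∑_(a ∈ od N) s a z)`. The claim: `(3^N)⁻¹ * 3 * ∑ s a z` is `GE (N + 1 - N)` (`vP P (3^N) = N`). -/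
def S_TrW : Prop := GL.C_In → GL.C_Act → GL.C_Sur → GL.C_TrZ → C_V0 → C_Od → C_TrW

/-! ## 3. The end of the local step -/

/-- (190 lines) **LSm**: `S_LS` (from Zn, UAct, Abs, Fou, TrW, Od). Compare `DN/G/LSm.lean`. PROOF. Let `x = xs P f k e m R χ`, `c : ℤ`, `j : ℕ`. `ν = NI m`, `f' = f * ν`. `η = zet (3^(j+1)) ^ (c * ν)`. For `N ≥ j + 2`, `N ≥ 3`, `c' = c * 3^(N-2-j)`: `c / 3^j = c' / 3^(N-2)`, and `zet (3^(N-1)) ^ (3^(N-2-j)) = zet (3^(j+1))` (`zet n = ofC (ex (1/n))`; prove `zet (n * l) ^ l = zet n` by `io`, `CV_io_zet`),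
`ζ = zet (3^N)` is a primitive root of order `3^N` (`DT.GL`: grep `zet_prim`), `ζ ^ 3 = zet (3^(N-1))`; put `i = 3 c' ν`: `zet (3^(N-1)) ^ (c' ν a) = ζ ^ (i a)`, `ζ ^ i = η`. CASE A: `¬ (k = 1 ∧ e = 1)`. Fou for `c'` and for `0`: `x (c/3^j) - x 0 = (3^N)⁻¹ ∑_(a ∈ od N) (ζ^(i a) + (-1)^e ζ^(-(i a)) - δ) * WW a`, `δ = 1 + (-1)^e`. `κ = η + (-1)^e η⁻¹ - δ`: `κ = (η - 1)²/η` for `e = 0`, `κ = (η² - 1)/η`
for `e = 1`. `κ = 0`: then all the factors `s a κ` vanish too: for `e = 0`: `η = 1`, `ζ^(i a) = 1`; for `e = 1`: `η² = 1`, so `η = 1` (`η^(3^(j+1)) = 1`, odd order), the same; the difference is `0`. `κ ≠ 0`: `MP P κ` (`MP P (η - 1)`: `η` is a root of unity of `3`-power order: `(η - 1)^(3^(j+1)) - (η^(3^(j+1)) - 1) ∈ 3 V_P`, or `GL.C_Zn` / `GL.C_Rou`-like), so `0 < v = vP P κ`, independent of `N`. Take `N` from the hypothesis with `N ≥ N0`,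
`N0 ≥ max 3 (j + 2)`, `6/3^N0 ≤ v`: `Hy P f N k e m R χ`. Abs (1): `GE P (3/2 - 6/3^N) (WW 1)`, so `κ WW 1 / 3` is `GE (v + 3/2 - 6/3^N - 1)`, hence `GE (1/2)`. TrW with `Y = WW ..`, `f'` (periodicity, parity: `WW (-a) = UU (-a) + (-1)^e UU a = (-1)^e WW a`; the action: UAct for `a` and `-a`): `GE P 1 (x (c/3^j) - x 0)`, so `MP P`. CASE B: `k = e = 1`, `3 ∣ u - 1`. `u'` with `3^N ∣ u u' - 1`, so `3 ∣ u' - 1`.
Fou for `c'` and `u c'` (`u c / 3^j = u c' / 3^(N-2)`): `x (u c/3^j) = (3^N)⁻¹ ∑_(a ∈ od N) F (u a)`, `F a = (ζ^(i a) - ζ^(-(i a))) * WW (u' a)` (`WW (u' u a) = WW a`), `F` is even and periodic modulo `3^N`: Od (5): `= (3^N)⁻¹ ∑_(a ∈ od N) F a`. So `x (u c/3^j) - x (c/3^j) = (3^N)⁻¹ ∑_(a ∈ od N) (ζ^(i a) + (-1)^1 ζ^(-(i a)) - 0) * Y a`, `Y a = WW (u' a) - WW a`. If `η = 1` this is `0`; otherwise `κ = η - η⁻¹ ≠ 0`,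
`0 < v = vP P κ`, `N` as before; Abs (2) for `u'`: `GE P (3/2 - 6/3^N) (Y 1)`, TrW with `δ = 0`, `Y` (the action: `τ (Y a) = WW (Nm h u' a) - WW (Nm h a)`, UAct for `u' a` prime to `3`). -/
def S_LSm : Prop := GL.C_Zn → C_UAct → C_Abs → C_Fou → C_TrW → C_Od → S_LS

/-! ## The composition -/

/-- The modules of this file: `S_LS`. -/
theorem asmC (b7 : S_B7) (r1 : S_R1) (d2 : S_D2) (d9 : S_D9) (c4 : S_C4) (htm : S_Tm) (o : GL.GLOut) (g : GL.GTOut) (p : GL.GBOut)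
    (rb : C_RB) (rd : C_RD) (bt : S_Bt) (od : S_Od) (v0 : S_V0) (cht : S_ChT) (gb : S_Gb) (rs : S_RS) (cos : S_Cos)
    (su : S_SU) (u1 : S_U1) (uact : S_UAct) (ab : S_Abs) (fou : S_Fou) (trw : S_TrW) (lsm : S_LSm) : S_LS ∧ C_ChT :=
  have Bt := bt htm
  have ChT := cht p.Rou g.Zt v0
  have Gb := gb b7 r1 d2 d9
  have SU := su d2 o.Act o.Rep o.Sur o.Tra g.Zt p.Pnt ChT Gb (cos Bt)
  have U1 := u1 p.LSS g.Zt (rs rb rd ChT Gb) SU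
  have UAct := uact o.Act g.Zt g.Tc ChT Gb Bt
  have Abs := ab o.Sur g.Zt g.Tc v0 ChT U1 UAct
  ⟨lsm o.Zn UAct Abs (fou htm c4 g.Zt Gb Bt od) (trw o.In o.Act o.Sur g.TrZ v0 od) od, ChT⟩

end Pool.Agent.DM.GC
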